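import Pool.Agent.Lib.MP_c82d9a_nt.Diag

/-! The sum over one block. -/

set_option maxHeartbeats 1000000

namespace Pool.Agent.MPc82d9a

open Polynomial

theorem qq_ne : qq ≠ 0 := RatFunc.X_ne_zero

theorem one_sub_qq (k : ℕ) (hk : 0 < k) : 1 - qq ^ k ≠ 0 := by
  have e : (1 - qq ^ k : RatFunc ℚ) = emb (1 - X ^ k) := by
    rw [map_sub, map_pow, emb_X, map_one]
  rw [e, emb_ne_zero]
  intro h
  have h2 := congrArg (fun P : ℚ[X] => P.eval 0) h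
  simp only [eval_sub, eval_one, eval_pow, eval_X, eval_zero] at h2
  rw [zero_pow (by omega)] at h2
  norm_num at h2

theorem prodA_eq (n b : ℕ) (k : ℤ) :
    (∏ i ∈ Finset.range b, (1 - qq ^ ((2 * i + 1 : ℤ) + k * n))) = PA qq (qq ^ (k * n)) b := by
  unfold PA
  apply Finset.prod_congr rfl
  intro i _
  rw [zpow_add₀ qq_ne, mul_comm]
  congr 2

theorem prodB_eq (n b : ℕ) (k : ℤ) :
    (∏ i ∈ Finset.range b, (1 - qq ^ ((i + 1 : ℤ) + k * n))) = PB qq (qq ^ (k * n)) b := by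
  unfold PB
  apply Finset.prod_congr rfl
  intro i _
  rw [zpow_add₀ qq_ne, mul_comm]
  congr 2

theorem Fg_eq (n b : ℕ) (r s t : ℤ) : Fg n b r s t =
    (-1) ^ b * (1 - qq ^ ((r + s + t) * n) * qq ^ (3 * b + 1)) *
    (PA qq (qq ^ ((s + t) * n)) b * PA qq (qq ^ ((r + t) * n)) b * PA qq (qq ^ ((r + s) * n)) b) *
    ((PB qq (qq ^ (r * n)) b)⁻¹ * (PB qq (qq ^ (s * n)) b)⁻¹ * (PB qq (qq ^ (t * n)) b)⁻¹) := by
  unfold Fg
  simp only [prodA_eq, prodB_eq, one_mul, zero_mul, zero_add, add_zero]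
  have e : qq ^ ((3 * b + 1 : ℤ) + (r + s + t) * n) =
      qq ^ ((r + s + t) * n) * qq ^ (3 * b + 1) := by
    rw [zpow_add₀ qq_ne, mul_comm]
    congr 1
  rw [e]

/-- the truncated sum -/
noncomputable def SS (n N : ℕ) (r s t : ℤ) : RatFunc ℚ := ∑ b ∈ Finset.range (N + 1), Fg n b r s t

theorem SS_symm1 (n N : ℕ) (r s t : ℤ) : SS n N r s t = SS n N s r t := by
  unfold SS
  apply Finset.sum_congr rfl
  intro b _
  rw [Fg_eq, Fg_eq, add_comm r s]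
  ring

theorem SS_symm2 (n N : ℕ) (r s t : ℤ) : SS n N r s t = SS n N r t s := by
  unfold SS
  apply Finset.sum_congr rfl
  intro b _
  rw [Fg_eq, Fg_eq, add_comm s t, add_right_comm r s t]
  ring

theorem SS_van (N : ℕ) : SS (2 * N + 1) N (-1) 0 0 = 0 := by
  rw [← vanishing qq qq_ne one_sub_qq N]
  unfold SS
  apply Finset.sum_congr rfl
  intro b _
  rw [Fg_eq, FV, tV]
  have e : qq ^ ((-1 : ℤ) * ((2 * N + 1 : ℕ) : ℤ)) = (qq ^ (2 * N + 1))⁻¹ := by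
    rw [neg_one_mul, zpow_neg, zpow_natCast]
  simp only [add_zero, zero_mul, zpow_zero, e]
  rw [div_eq_mul_inv, mul_inv, ← inv_pow]
  ring

theorem SS_closed (N : ℕ) : SS (2 * N + 1) N 1 (-1) 0 =
    (-1) ^ N * qq ^ (N ^ 2) * (1 - qq ^ (2 * N + 1)) := by
  rw [← closed_form qq qq_ne one_sub_qq N]
  unfold SS
  apply Finset.sum_congr rfl
  intro b _
  rw [Fg_eq, FM, tM]
  have e : qq ^ ((-1 : ℤ) * ((2 * N + 1 : ℕ) : ℤ)) = (qq ^ (2 * N + 1))⁻¹ := by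
    rw [neg_one_mul, zpow_neg, zpow_natCast]
  have e1 : qq ^ ((1 : ℤ) * ((2 * N + 1 : ℕ) : ℤ)) = qq ^ (2 * N + 1) := by
    rw [one_mul, zpow_natCast]
  simp only [add_zero, zero_mul, zpow_zero, e, e1, add_neg_cancel]
  rw [div_eq_mul_inv, mul_inv, mul_inv]
  ring

theorem SS_diag (N : ℕ) (a : ℤ) :
    Cg (cyclotomic (2 * N + 1) ℚ) 2 (SS (2 * N + 1) N a a a)
      ((3 * a + 1) * ((-1) ^ N * qq ^ (N ^ 2) * (1 - qq ^ (2 * N + 1)))) := by
  have hn : 0 < 2 * N + 1 := by omega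
  apply diag_of_symm hn (Lin.sum hn (S := Finset.range (N + 1)) fun b hb => ?_)
    (SS_symm1 _ N) (SS_symm2 _ N) (SS_van N) (SS_closed N)
  rw [Finset.mem_range] at hb
  exact lin_Fg hn (by omega)

theorem Dv.mul11 {Φ : ℚ[X]} (hp : Prime Φ) {f g : RatFunc ℚ} (hf : Dv Φ 1 f) (hg : Dv Φ 1 g) :
    Dv Φ 2 (f * g) := by
  have h := hf.mul hp hg
  rw [one_add_one_eq_two] at h
  exact h

theorem Fg_tail (N b : ℕ) (hb : N < b) (hb' : b < 2 * N + 1) (a : ℤ) :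
    Dv (cyclotomic (2 * N + 1) ℚ) 2 (Fg (2 * N + 1) b a a a) := by
  have hn : 0 < 2 * N + 1 := by omega
  have hp := prime_cyc hn
  have hA : ∀ k : ℤ, Dv (cyclotomic (2 * N + 1) ℚ) 1
      (∏ i ∈ Finset.range b, (1 - qq ^ ((2 * i + 1 : ℤ) + k * (2 * N + 1 : ℕ)))) := by
    intro k
    rw [← Finset.mul_prod_erase _ _ (Finset.mem_range.mpr hb)]
    apply Dv.mul_right hp
    · apply dv_one_sub hn
      refine ⟨k + 1, ?_⟩
      push_cast
      ring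
    · apply Dv.prod hp
      intro i _
      exact dv_one_sub_zero hn _
  have hB : ∀ k : ℤ, Dv (cyclotomic (2 * N + 1) ℚ) 0
      (∏ i ∈ Finset.range b, (1 - qq ^ ((i + 1 : ℤ) + k * (2 * N + 1 : ℕ))))⁻¹ := by
    intro k
    exact (un_PB hn hb' k).inv.dv
  have h0 : Dv (cyclotomic (2 * N + 1) ℚ) 0 ((-1) ^ b : RatFunc ℚ) := by
    have := Dv.intCast hp ((-1) ^ b)
    push_cast at this
    exact this
  have hAA : Dv (cyclotomic (2 * N + 1) ℚ) 2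
      ((∏ i ∈ Finset.range b, (1 - qq ^ ((2 * i + 1 : ℤ) + (0 * a + 1 * a + 1 * a) * (2 * N + 1 : ℕ)))) *
      (∏ i ∈ Finset.range b, (1 - qq ^ ((2 * i + 1 : ℤ) + (1 * a + 0 * a + 1 * a) * (2 * N + 1 : ℕ))))) :=
    Dv.mul11 hp (hA (0 * a + 1 * a + 1 * a)) (hA (1 * a + 0 * a + 1 * a))
  have hAAA := hAA.mul_right hp ((hA (1 * a + 1 * a + 0 * a)).mono (Nat.zero_le 1))
  have hBBB := ((hB (1 * a + 0 * a + 0 * a)).mul_left hp (hB (0 * a + 1 * a + 0 * a))).mul_left hp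
    (hB (0 * a + 0 * a + 1 * a))
  have h01 := h0.mul_left hp (dv_one_sub_zero hn
    ((3 * b + 1 : ℤ) + (1 * a + 1 * a + 1 * a) * (2 * N + 1 : ℕ)))
  have hfin := (h01.mul_left hp hAAA).mul_right hp hBBB
  unfold Fg
  exact hfin

theorem block_sum (N : ℕ) (a : ℤ) :
    Cg (cyclotomic (2 * N + 1) ℚ) 2 (∑ b ∈ Finset.range (2 * N + 1), Fg (2 * N + 1) b a a a)
      ((3 * a + 1) * ((-1) ^ N * qq ^ (N ^ 2) * (1 - qq ^ (2 * N + 1)))) := by
  have hn : 0 < 2 * N + 1 := by omega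
  have hp := prime_cyc hn
  have hsplit : ∑ b ∈ Finset.range (2 * N + 1), Fg (2 * N + 1) b a a a =
      SS (2 * N + 1) N a a a + ∑ b ∈ Finset.Ico (N + 1) (2 * N + 1), Fg (2 * N + 1) b a a a := by
    unfold SS
    rw [Finset.sum_range_add_sum_Ico _ (by omega)]
  have h1 := SS_diag N a
  have h2 : Dv (cyclotomic (2 * N + 1) ℚ) 2
      (∑ b ∈ Finset.Ico (N + 1) (2 * N + 1), Fg (2 * N + 1) b a a a) := by
    apply Dv.sum hp
    intro b hb
    rw [Finset.mem_Ico] at hb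
    exact Fg_tail N b (by omega) hb.2 a
  unfold Cg at h1 ⊢
  have := h1.add hp h2
  rw [hsplit]
  convert this using 1
  ring

end Pool.Agent.MPc82d9a
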