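import Mathlib

/-! Definitions for problem MP_c82d9a_nt. -/

namespace Pool.Agent.MPc82d9a

open Polynomial

/-- The `q`-shifted factorial `(a; p)_k = (1 - a) (1 - a p) ⋯ (1 - a p^(k-1))` in `ℚ(q)`. -/
noncomputable def qPoch (a p : RatFunc ℚ) (k : ℕ) : RatFunc ℚ :=
  ∏ i ∈ Finset.range k, (1 - a * p ^ i)

/-- The `q`-integer `[k] = 1 + q + ⋯ + q^(k-1)`. -/
noncomputable def qInt (k : ℕ) : RatFunc ℚ := ∑ i ∈ Finset.range k, RatFunc.X ^ i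

/-- `c_j(q) = ((q; q^2)_j / (q; q)_j)^3`. -/
noncomputable def c (j : ℕ) : RatFunc ℚ :=
  (qPoch RatFunc.X (RatFunc.X ^ 2) j / qPoch RatFunc.X RatFunc.X j) ^ 3

/-- `b_j = 8^j ((1/2)_j)^3 / (j!)^3`, where `(x)_j` is the rising factorial. -/
noncomputable def b (j : ℕ) : ℚ :=
  8 ^ j * ((ascPochhammer ℚ j).eval (1 / 2)) ^ 3 / (j.factorial : ℚ) ^ 3

/-- `L_{m,n}(q)`. -/
noncomputable def L (m n : ℕ) : RatFunc ℚ :=
  ∑ j ∈ Finset.range (m * n), (-1) ^ j * qInt (3 * j + 1) * c j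

/-- `R_{m,n}(q)`. -/
noncomputable def R (m n : ℕ) : RatFunc ℚ :=
  (-1) ^ ((n - 1) / 2) * RatFunc.X ^ ((n - 1) ^ 2 / 4) * qInt n *
    algebraMap ℚ (RatFunc ℚ) (∑ j ∈ Finset.range m, (-1) ^ j * (3 * (j : ℚ) + 1) * b j)

/-- `A ≡ B` modulo `Φ_n(q)^2`: writing `A - B = P / Q` in lowest terms, `Φ_n^2` divides `P`
and `Φ_n` does not divide `Q`. -/
def CongrModSq (n : ℕ) (A B : RatFunc ℚ) : Prop :=
  (cyclotomic n ℚ) ^ 2 ∣ (A - B).num ∧ ¬ cyclotomic n ℚ ∣ (A - B).denom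

end Pool.Agent.MPc82d9a
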