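import Pool.Agent.Lib.MP_c82d9a_nt.Generic

/-! The second terminating sum, for generic `q`. -/

set_option maxHeartbeats 4000000

namespace Pool.Agent.MPc82d9a

variable {F : Type*} [Field F]

/-- the summand without its linear factor -/
def tM (q a : F) (b : ℕ) : F :=
  (-1) ^ b * PA q a b * PA q a⁻¹ b * PA q 1 b / (PB q a b * PB q a⁻¹ b * PB q 1 b)

/-- the summand -/
def FM (q a : F) (b : ℕ) : F := (1 - q ^ (3 * b + 1)) * tM q a b

/-- the companion (shifted) -/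
def HM (q a : F) (b : ℕ) : F :=
  (-1) ^ b * (1 - a * q ^ 2) * (1 - a ^ 2 * q ^ 2) * q ^ b * PA q a (b + 1) * PA q 1 (b + 1)
    * PA q a⁻¹ b / (PB q a (b + 2) * PB q a⁻¹ b * PB q 1 b)

theorem PA_down (q z : F) (hq : q ≠ 0) (c : ℕ) :
    PA q (z * (q ^ 2)⁻¹) (c + 1) = (1 - z * q⁻¹) * PA q z c := by
  unfold PA
  rw [Finset.prod_range_succ', mul_comm]
  congr 1
  · field_simp
    ring
  · apply Finset.prod_congr rfl
    intro i _
    have : q ^ (2 * (i + 1) + 1) = q ^ 2 * q ^ (2 * i + 1) := by ring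
    rw [this]
    field_simp

theorem PB_down (q z : F) (hq : q ≠ 0) (c : ℕ) :
    (1 - z * q ^ c) * PB q (z * (q ^ 2)⁻¹) (c + 1) = (1 - z * q⁻¹) * (1 - z) * PB q z c := by
  induction c with
  | zero =>
    simp only [PB_zero, PB_succ, pow_zero, mul_one, one_mul, zero_add, pow_one]
    field_simp
  | succ c ih =>
    rw [PB_succ q (z * (q ^ 2)⁻¹), PB_succ q z c]
    have e : z * (q ^ 2)⁻¹ * q ^ (c + 1 + 1) = z * q ^ c := by
      have : q ^ (c + 1 + 1) = q ^ 2 * q ^ c := by ring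
      rw [this]
      field_simp
    rw [e]
    linear_combination (1 - z * q ^ (c + 1)) * ih

theorem WZ_M0 (q a : F) (ha : 1 - a * q ≠ 0) (ha2 : 1 - a * q ^ 2 ≠ 0) :
    (1 - a) * FM q (a * q ^ 2) 0 + a * (1 - a * q ^ 2) * FM q a 0 = HM q a 0 := by
  simp only [FM, tM, HM, PA_zero, PB_zero, PA_succ, PB_succ, pow_zero, mul_one, one_mul,
    zero_add, pow_one, mul_zero, div_one]
  have ha2' : 1 - a * q ^ (1 + 1) ≠ 0 := by simpa using ha2
  field_simp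
  ring

theorem tM_shift (q a : F) (c : ℕ) (hq0 : q ≠ 0)
    (hz : ∀ i, 1 ≤ i → i ≤ c + 3 → 1 - a * q ^ i ≠ 0)
    (hw : ∀ i, i ≤ c → 1 - a⁻¹ * q ^ i ≠ 0) (hw' : 1 - a⁻¹ * q⁻¹ ≠ 0)
    (h1 : ∀ i, 1 ≤ i → i ≤ c + 1 → 1 - q ^ i ≠ 0) :
    tM q (a * q ^ 2) (c + 1) = (-1) ^ (c + 1) * PA q a (c + 1) * PA q a⁻¹ c
      * PA q 1 (c + 1) / (PB q a (c + 1) * PB q a⁻¹ c * PB q 1 c) *
      ((1 - a * q ^ (2 * (c + 1) + 1)) * (1 - a * q ^ 2) * (1 - a⁻¹ * q ^ c) /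
        ((1 - a * q ^ (c + 2)) * (1 - a * q ^ (c + 3)) * (1 - a⁻¹) * (1 - q ^ (c + 1)))) := by
  have hB : PB q a (c + 1) ≠ 0 := PB_ne_zero fun i hi hi' => hz i hi (by omega)
  have hB' : PB q a⁻¹ c ≠ 0 := PB_ne_zero fun i hi hi' => hw i (by omega)
  have hB1 : PB q 1 c ≠ 0 := PB_ne_zero fun i hi hi' => by simpa using h1 i hi (by omega)
  have z1 : 1 - a * q ≠ 0 := by simpa using hz 1 le_rfl (by omega)
  have z2 : 1 - a * q ^ 2 ≠ 0 := hz 2 (by omega) (by omega)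
  have zc2 : 1 - a * q ^ (c + 2) ≠ 0 := hz _ (by omega) (by omega)
  have zc3 : 1 - a * q ^ (c + 3) ≠ 0 := hz _ (by omega) (by omega)
  have w0 : 1 - a⁻¹ ≠ 0 := by simpa using hw 0 (by omega)
  have wc : 1 - a⁻¹ * q ^ c ≠ 0 := hw _ (by omega)
  have qc1 : 1 - q ^ (c + 1) ≠ 0 := h1 _ (by omega) (by omega)
  have eA : PA q (a * q ^ 2) (c + 1) =
      PA q a (c + 1) * (1 - a * q ^ (2 * (c + 1) + 1)) / (1 - a * q) := by
    rw [eq_div_iff z1, mul_comm, PA_shift]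
  have eB : PB q (a * q ^ 2) (c + 1) =
      PB q a (c + 1) * (1 - a * q ^ (c + 2)) * (1 - a * q ^ (c + 3)) /
      ((1 - a * q) * (1 - a * q ^ 2)) := by
    rw [eq_div_iff (mul_ne_zero z1 z2), mul_comm, PB_shift2]
  have einv : (a * q ^ 2)⁻¹ = a⁻¹ * (q ^ 2)⁻¹ := by rw [mul_inv]
  have eA' : PA q (a * q ^ 2)⁻¹ (c + 1) = (1 - a⁻¹ * q⁻¹) * PA q a⁻¹ c := by
    rw [einv, PA_down q _ hq0]
  have eB' : PB q (a * q ^ 2)⁻¹ (c + 1) =
      (1 - a⁻¹ * q⁻¹) * (1 - a⁻¹) * PB q a⁻¹ c / (1 - a⁻¹ * q ^ c) := by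
    rw [einv, eq_div_iff wc, mul_comm, PB_down q _ hq0]
  unfold tM
  rw [eA, eB, eA', eB', PB_succ q 1 c]
  simp only [one_mul]
  clear eA eB eA' eB' einv
  generalize PA q a⁻¹ c = A2
  generalize PB q a⁻¹ c = B2 at *
  generalize PA q a (c + 1) = A1
  generalize PB q a (c + 1) = B1 at *
  generalize PA q 1 (c + 1) = A3
  generalize PB q 1 c = B3 at *
  generalize 1 - a⁻¹ * q ^ c = y1 at *
  generalize 1 - a⁻¹ * q⁻¹ = y2 at *
  generalize 1 - a⁻¹ = y3 at *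
  field_simp

theorem HM_eq (q a : F) (c : ℕ)
    (hz : ∀ i, 1 ≤ i → i ≤ c + 3 → 1 - a * q ^ i ≠ 0)
    (hw : ∀ i, i ≤ c → 1 - a⁻¹ * q ^ i ≠ 0)
    (h1 : ∀ i, 1 ≤ i → i ≤ c + 1 → 1 - q ^ i ≠ 0) :
    HM q a c = (-1) ^ (c + 1) * PA q a (c + 1) * PA q a⁻¹ c
      * PA q 1 (c + 1) / (PB q a (c + 1) * PB q a⁻¹ c * PB q 1 c) *
      (-((1 - a * q ^ 2) * (1 - a ^ 2 * q ^ 2) * q ^ c) / (1 - a * q ^ (c + 2))) := by
  have hB : PB q a (c + 1) ≠ 0 := PB_ne_zero fun i hi hi' => hz i hi (by omega)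
  have hB' : PB q a⁻¹ c ≠ 0 := PB_ne_zero fun i hi hi' => hw i (by omega)
  have hB1 : PB q 1 c ≠ 0 := PB_ne_zero fun i hi hi' => by simpa using h1 i hi (by omega)
  have zc2 : 1 - a * q ^ (c + 2) ≠ 0 := hz _ (by omega) (by omega)
  unfold HM
  rw [PB_succ q a (c + 1), pow_succ (-1 : F) c]
  have : a * q ^ (c + 1 + 1) = a * q ^ (c + 2) := by ring
  rw [this]
  generalize PA q a⁻¹ c = A2
  generalize PB q a⁻¹ c = B2 at *
  generalize PA q a (c + 1) = A1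
  generalize PB q a (c + 1) = B1 at *
  generalize PA q 1 (c + 1) = A3
  generalize PB q 1 c = B3 at *
  field_simp

theorem WZ_M (q a : F) (c : ℕ) (hq0 : q ≠ 0) (ha0 : a ≠ 0)
    (hz : ∀ i, 1 ≤ i → i ≤ c + 3 → 1 - a * q ^ i ≠ 0)
    (hw : ∀ i, i ≤ c + 1 → 1 - a⁻¹ * q ^ i ≠ 0) (hw' : 1 - a⁻¹ * q⁻¹ ≠ 0)
    (h1 : ∀ i, 1 ≤ i → i ≤ c + 1 → 1 - q ^ i ≠ 0) :
    (1 - a) * FM q (a * q ^ 2) (c + 1) + a * (1 - a * q ^ 2) * FM q a (c + 1) =
      HM q a (c + 1) - HM q a c := by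
  have hB : PB q a (c + 1) ≠ 0 := PB_ne_zero fun i hi hi' => hz i hi (by omega)
  have hB' : PB q a⁻¹ c ≠ 0 := PB_ne_zero fun i hi hi' => hw i (by omega)
  have hB1 : PB q 1 c ≠ 0 := PB_ne_zero fun i hi hi' => by simpa using h1 i hi (by omega)
  have z1 : 1 - a * q ≠ 0 := by simpa using hz 1 le_rfl (by omega)
  have z2 : 1 - a * q ^ 2 ≠ 0 := hz 2 (by omega) (by omega)
  have zc2 : 1 - a * q ^ (c + 2) ≠ 0 := hz _ (by omega) (by omega)
  have zc3 : 1 - a * q ^ (c + 3) ≠ 0 := hz _ (by omega) (by omega)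
  have w0 : 1 - a⁻¹ ≠ 0 := by simpa using hw 0 (by omega)
  have wc : 1 - a⁻¹ * q ^ c ≠ 0 := hw _ (by omega)
  have wc1 : 1 - a⁻¹ * q ^ (c + 1) ≠ 0 := hw _ (by omega)
  have qc1 : 1 - q ^ (c + 1) ≠ 0 := h1 _ (by omega) (by omega)
  have a1 : 1 - a ≠ 0 := by
    intro h
    have : a = 1 := by linear_combination -h
    rw [this] at w0
    simp at w0
  have et1 : tM q (a * q ^ 2) (c + 1) = (-1) ^ (c + 1) * PA q a (c + 1) * PA q a⁻¹ c
      * PA q 1 (c + 1) / (PB q a (c + 1) * PB q a⁻¹ c * PB q 1 c) *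
      ((1 - a * q ^ (2 * (c + 1) + 1)) * (1 - a * q ^ 2) * (1 - a⁻¹ * q ^ c) /
        ((1 - a * q ^ (c + 2)) * (1 - a * q ^ (c + 3)) * (1 - a⁻¹) * (1 - q ^ (c + 1)))) :=
    tM_shift q a c hq0 hz (fun i hi => hw i (by omega)) hw' h1
  have et2 : tM q a (c + 1) = (-1) ^ (c + 1) * PA q a (c + 1) * PA q a⁻¹ c
      * PA q 1 (c + 1) / (PB q a (c + 1) * PB q a⁻¹ c * PB q 1 c) *
      ((1 - a⁻¹ * q ^ (2 * c + 1)) / ((1 - a⁻¹ * q ^ (c + 1)) * (1 - q ^ (c + 1)))) := by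
    unfold tM
    rw [PA_succ q a⁻¹ c, PB_succ q a⁻¹ c, PB_succ q 1 c]
    simp only [one_mul]
    clear et1
    generalize PA q a⁻¹ c = A2
    generalize PB q a⁻¹ c = B2 at *
    generalize PA q a (c + 1) = A1
    generalize PB q a (c + 1) = B1 at *
    generalize PA q 1 (c + 1) = A3
    generalize PB q 1 c = B3 at *
    generalize 1 - a⁻¹ * q ^ (c + 1) = y1 at *
    generalize 1 - a⁻¹ * q ^ (2 * c + 1) = y2 at *
    field_simp
  have et3 : HM q a c = (-1) ^ (c + 1) * PA q a (c + 1) * PA q a⁻¹ c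
      * PA q 1 (c + 1) / (PB q a (c + 1) * PB q a⁻¹ c * PB q 1 c) *
      (-((1 - a * q ^ 2) * (1 - a ^ 2 * q ^ 2) * q ^ c) / (1 - a * q ^ (c + 2))) :=
    HM_eq q a c hz (fun i hi => hw i (by omega)) h1
  have et4 : HM q a (c + 1) = (-1) ^ (c + 1) * PA q a (c + 1) * PA q a⁻¹ c
      * PA q 1 (c + 1) / (PB q a (c + 1) * PB q a⁻¹ c * PB q 1 c) *
      ((1 - a * q ^ 2) * (1 - a ^ 2 * q ^ 2) * q ^ (c + 1) * (1 - a * q ^ (2 * (c + 1) + 1)) *
        (1 - q ^ (2 * (c + 1) + 1)) * (1 - a⁻¹ * q ^ (2 * c + 1)) /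
        ((1 - a * q ^ (c + 2)) * (1 - a * q ^ (c + 3)) * (1 - a⁻¹ * q ^ (c + 1))
          * (1 - q ^ (c + 1)))) := by
    unfold HM
    rw [PA_succ q a (c + 1), PA_succ q 1 (c + 1), PA_succ q a⁻¹ c, PB_succ q a (c + 1 + 1),
      PB_succ q a (c + 1), PB_succ q a⁻¹ c, PB_succ q 1 c]
    have e1 : a * q ^ (c + 1 + 1) = a * q ^ (c + 2) := by ring
    have e2 : a * q ^ (c + 1 + 1 + 1) = a * q ^ (c + 3) := by ring
    rw [e1, e2]
    simp only [one_mul]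
    clear et1 et2 et3
    generalize PA q a⁻¹ c = A2
    generalize PB q a⁻¹ c = B2 at *
    generalize PA q a (c + 1) = A1
    generalize PB q a (c + 1) = B1 at *
    generalize PA q 1 (c + 1) = A3
    generalize PB q 1 c = B3 at *
    generalize 1 - a⁻¹ * q ^ (c + 1) = y1 at *
    generalize 1 - a⁻¹ * q ^ (2 * c + 1) = y2 at *
    field_simp
  unfold FM
  rw [et1, et2, et3, et4]
  generalize (-1) ^ (c + 1) * PA q a (c + 1) * PA q a⁻¹ c
      * PA q 1 (c + 1) / (PB q a (c + 1) * PB q a⁻¹ c * PB q 1 c) = t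
  have x1 : q ^ (c + 1) = q * q ^ c := by ring
  have x2 : q ^ (c + 2) = q ^ 2 * q ^ c := by ring
  have x3 : q ^ (c + 3) = q ^ 3 * q ^ c := by ring
  have x4 : q ^ (2 * c + 1) = q * (q ^ c) ^ 2 := by ring
  have x5 : q ^ (2 * (c + 1) + 1) = q ^ 3 * (q ^ c) ^ 2 := by ring
  have x6 : q ^ (3 * (c + 1) + 1) = q ^ 4 * (q ^ c) ^ 3 := by ring
  rw [x2] at zc2
  rw [x3] at zc3
  rw [x1] at wc1 qc1
  rw [x1, x2, x3, x4, x5, x6]
  clear et1 et2 et3 et4 hB hB' hB1 hz hw h1 x1 x2 x3 x4 x5 x6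
  generalize q ^ c = X at *
  have zc2' : 1 - a * q ^ 2 * X ≠ 0 := by rw [mul_assoc]; exact zc2
  have zc3' : 1 - a * q ^ 3 * X ≠ 0 := by rw [mul_assoc]; exact zc3
  have w0' : a - 1 ≠ 0 := by
    intro h; apply a1; linear_combination -h
  have wc' : a - X ≠ 0 := by
    intro h; apply wc; field_simp; linear_combination h
  have wc1' : a - q * X ≠ 0 := by
    intro h; apply wc1; field_simp; linear_combination h
  have e1 : 1 - a⁻¹ = (a - 1) / a := by field_simp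
  have e2 : 1 - a⁻¹ * X = (a - X) / a := by field_simp
  have e3 : 1 - a⁻¹ * (q * X) = (a - q * X) / a := by field_simp
  have e4 : 1 - a⁻¹ * (q * X ^ 2) = (a - q * X ^ 2) / a := by field_simp
  rw [e1, e2, e3, e4]
  field_simp
  ring

theorem sum_M (q a : F) (M : ℕ) (hq0 : q ≠ 0) (ha0 : a ≠ 0)
    (hz : ∀ i, 1 ≤ i → i ≤ M + 3 → 1 - a * q ^ i ≠ 0)
    (hw : ∀ i, i ≤ M → 1 - a⁻¹ * q ^ i ≠ 0) (hw' : 1 - a⁻¹ * q⁻¹ ≠ 0)
    (h1 : ∀ i, 1 ≤ i → i ≤ M → 1 - q ^ i ≠ 0) :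
    (1 - a) * ∑ b ∈ Finset.range (M + 1), FM q (a * q ^ 2) b +
      a * (1 - a * q ^ 2) * ∑ b ∈ Finset.range (M + 1), FM q a b = HM q a M := by
  induction M with
  | zero =>
    rw [Finset.sum_range_one, Finset.sum_range_one]
    apply WZ_M0
    · simpa using hz 1 le_rfl (by omega)
    · exact hz 2 (by omega) (by omega)
  | succ M ih =>
    rw [Finset.sum_range_succ (fun b => FM q (a * q ^ 2) b) (M + 1),
      Finset.sum_range_succ (fun b => FM q a b) (M + 1)]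
    have h2 := ih (fun i hi hi' => hz i hi (by omega)) (fun i hi => hw i (by omega))
      (fun i hi hi' => h1 i hi (by omega))
    have h3 := WZ_M q a M hq0 ha0 (fun i hi hi' => hz i hi (by omega))
      (fun i hi => hw i (by omega)) hw' (fun i hi hi' => h1 i hi (by omega))
    linear_combination h2 + h3

theorem closed_form (q : F) (hq0 : q ≠ 0) (hq : ∀ k, 0 < k → 1 - q ^ k ≠ 0) (N : ℕ) :
    ∑ b ∈ Finset.range (N + 1), FM q (q ^ (2 * N + 1)) b =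
      (-1) ^ N * q ^ (N ^ 2) * (1 - q ^ (2 * N + 1)) := by
  induction N with
  | zero => simp [FM, tM, PA_zero, PB_zero]
  | succ N ih =>
    have hinv : ∀ i j, i < j → 1 - (q ^ j)⁻¹ * q ^ i ≠ 0 := by
      intro i j hij h
      have e : q ^ j = q ^ i * q ^ (j - i) := by
        rw [← pow_add]; congr 1; omega
      rw [e] at h
      apply hq (j - i) (by omega)
      have hqi : q ^ i ≠ 0 := pow_ne_zero _ hq0
      have hqj : q ^ (j - i) ≠ 0 := pow_ne_zero _ hq0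
      field_simp at h
      linear_combination -h
    have ha0 : q ^ (2 * N + 1) ≠ 0 := pow_ne_zero _ hq0
    have hz : ∀ i, 1 ≤ i → i ≤ N + 3 → 1 - q ^ (2 * N + 1) * q ^ i ≠ 0 := by
      intro i hi _
      rw [← pow_add]
      exact hq _ (by omega)
    have hw' : 1 - (q ^ (2 * N + 1))⁻¹ * q⁻¹ ≠ 0 := by
      have := hinv 0 (2 * N + 2) (by omega)
      rw [pow_zero, mul_one, pow_succ, mul_inv] at this
      exact this
    have key := sum_M q (q ^ (2 * N + 1)) N hq0 ha0 hz (fun i hi => hinv i _ (by omega)) hw'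
      (fun i hi _ => hq i hi)
    rw [ih] at key
    have e : q ^ (2 * N + 1) * q ^ 2 = q ^ (2 * (N + 1) + 1) := by ring
    -- the boundary terms cancel
    have hbd : (1 - q ^ (2 * N + 1)) * FM q (q ^ (2 * (N + 1) + 1)) (N + 1) +
        HM q (q ^ (2 * N + 1)) N = 0 := by
      rw [← e]
      unfold FM
      rw [tM_shift q _ N hq0 hz (fun i hi => hinv i _ (by omega)) hw' (fun i hi _ => hq i hi),
        HM_eq q _ N hz (fun i hi => hinv i _ (by omega)) (fun i hi _ => hq i hi)]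
      generalize (-1) ^ (N + 1) * PA q (q ^ (2 * N + 1)) (N + 1) * PA q (q ^ (2 * N + 1))⁻¹ N *
        PA q 1 (N + 1) / (PB q (q ^ (2 * N + 1)) (N + 1) * PB q (q ^ (2 * N + 1))⁻¹ N *
        PB q 1 N) = t
      have zc2 := hz (N + 2) (by omega) (by omega)
      have zc3 := hz (N + 3) (by omega) (by omega)
      have qc1 := hq (N + 1) (by omega)
      have a1 := hq (2 * N + 1) (by omega)
      have e1 : 1 - (q ^ (2 * N + 1))⁻¹ = -(1 - q ^ (2 * N + 1)) / q ^ (2 * N + 1) := by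
        field_simp; ring
      have e2 : 1 - (q ^ (2 * N + 1))⁻¹ * q ^ N = -(1 - q ^ (N + 1)) / q ^ (N + 1) := by
        have : q ^ (2 * N + 1) = q ^ N * q ^ (N + 1) := by ring
        rw [this]
        have h1 : q ^ N ≠ 0 := pow_ne_zero _ hq0
        have h2 : q ^ (N + 1) ≠ 0 := pow_ne_zero _ hq0
        field_simp
        ring
      rw [e1, e2]
      have x1 : q ^ (N + 1) = q * q ^ N := by ring
      have x2 : q ^ (N + 2) = q ^ 2 * q ^ N := by ring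
      have x3 : q ^ (N + 3) = q ^ 3 * q ^ N := by ring
      have x4 : q ^ (2 * N + 1) = q * (q ^ N) ^ 2 := by ring
      have x5 : q ^ (2 * (N + 1) + 1) = q ^ 3 * (q ^ N) ^ 2 := by ring
      have x6 : q ^ (3 * (N + 1) + 1) = q ^ 4 * (q ^ N) ^ 3 := by ring
      have hX : q ^ N ≠ 0 := pow_ne_zero _ hq0
      rw [x2, x4] at zc2
      rw [x3, x4] at zc3
      rw [x1] at qc1
      rw [x4] at a1
      rw [x1, x2, x3, x4, x5, x6]
      clear x1 x2 x3 x4 x5 x6 e1 e2 key ih hz hinv hw' ha0 e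
      generalize q ^ N = X at *
      have zc2' : 1 - q ^ 3 * X ^ 3 ≠ 0 := by
        intro h; apply zc2; linear_combination h
      have zc3' : 1 - q ^ 4 * X ^ 3 ≠ 0 := by
        intro h; apply zc3; linear_combination h
      have f1 : 1 - q * X ^ 2 * (q ^ 2 * X) = 1 - q ^ 3 * X ^ 3 := by ring
      have f2 : 1 - q * X ^ 2 * (q ^ 3 * X) = 1 - q ^ 4 * X ^ 3 := by ring
      rw [f1, f2]
      field_simp
      ring
    have h1a : 1 - q ^ (2 * N + 1) ≠ 0 := hq _ (by omega)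
    apply mul_left_cancel₀ h1a
    rw [Finset.sum_range_succ, ← e]
    rw [← e] at hbd
    have e2 : q ^ ((N + 1) ^ 2) = q ^ (N ^ 2) * q ^ (2 * N + 1) := by
      rw [← pow_add]; congr 1; ring
    rw [e2]
    linear_combination key + hbd

end Pool.Agent.MPc82d9a
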