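import Pool.Agent.Lib.MP_c82d9a_nt.Lin
import Pool.Agent.Lib.MP_c82d9a_nt.Generic2

/-! The symmetric three parameter sum on the diagonal. -/

set_option maxHeartbeats 1000000

namespace Pool.Agent.MPc82d9a

open Polynomial

theorem diag_of_symm {n : ℕ} (hn : 0 < n) {S : ℤ → ℤ → ℤ → RatFunc ℚ} (hS : Lin n S)
    (s1 : ∀ r s t, S r s t = S s r t) (s2 : ∀ r s t, S r s t = S r t s) {K : RatFunc ℚ}
    (h0 : S (-1) 0 0 = 0) (h1 : S 1 (-1) 0 = K) (a : ℤ) :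
    Cg (cyclotomic n ℚ) 2 (S a a a) ((3 * a + 1) * K) := by
  have hp := prime_cyc hn
  obtain ⟨f0, f1, f2, f3, d0, d1, d2, d3, h⟩ := hS
  have e12 : Dv (cyclotomic n ℚ) 2 (uu n * f1 - uu n * f2) := by
    have h3 := h 1 0 0
    have h4 := h 0 1 0
    rw [s1 1 0 0] at h3
    unfold Cg at h3 h4
    have := h4.sub hp h3
    have e : (S 0 1 0 - (f0 + uu n * (((0 : ℤ) : RatFunc ℚ) * f1 + ((1 : ℤ) : RatFunc ℚ) * f2 +
        ((0 : ℤ) : RatFunc ℚ) * f3))) -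
        (S 0 1 0 - (f0 + uu n * (((1 : ℤ) : RatFunc ℚ) * f1 + ((0 : ℤ) : RatFunc ℚ) * f2 +
        ((0 : ℤ) : RatFunc ℚ) * f3))) = uu n * f1 - uu n * f2 := by
      push_cast; ring
    rwa [e] at this
  have e23 : Dv (cyclotomic n ℚ) 2 (uu n * f2 - uu n * f3) := by
    have h3 := h 0 1 0
    have h4 := h 0 0 1
    rw [s2 0 1 0] at h3
    unfold Cg at h3 h4
    have := h4.sub hp h3
    have e : (S 0 0 1 - (f0 + uu n * (((0 : ℤ) : RatFunc ℚ) * f1 + ((0 : ℤ) : RatFunc ℚ) * f2 +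
        ((1 : ℤ) : RatFunc ℚ) * f3))) -
        (S 0 0 1 - (f0 + uu n * (((0 : ℤ) : RatFunc ℚ) * f1 + ((1 : ℤ) : RatFunc ℚ) * f2 +
        ((0 : ℤ) : RatFunc ℚ) * f3))) = uu n * f2 - uu n * f3 := by
      push_cast; ring
    rwa [e] at this
  have ev : Dv (cyclotomic n ℚ) 2 (f0 - uu n * f1) := by
    have h3 := h (-1) 0 0
    rw [h0] at h3
    unfold Cg at h3
    have := h3.neg
    have e : -(0 - (f0 + uu n * (((-1 : ℤ) : RatFunc ℚ) * f1 + ((0 : ℤ) : RatFunc ℚ) * f2 +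
        ((0 : ℤ) : RatFunc ℚ) * f3))) = f0 - uu n * f1 := by
      push_cast; ring
    rwa [e] at this
  have ek : Dv (cyclotomic n ℚ) 2 (K - (f0 + (uu n * f1 - uu n * f2))) := by
    have h3 := h 1 (-1) 0
    rw [h1] at h3
    unfold Cg at h3
    have e : K - (f0 + uu n * (((1 : ℤ) : RatFunc ℚ) * f1 + ((-1 : ℤ) : RatFunc ℚ) * f2 +
        ((0 : ℤ) : RatFunc ℚ) * f3)) = K - (f0 + (uu n * f1 - uu n * f2)) := by
      push_cast; ring
    rwa [e] at h3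
  have h3 := h a a a
  unfold Cg at h3 ⊢
  have da := Dv.intCast hp a
  have db : Dv (cyclotomic n ℚ) 0 (3 * (a : RatFunc ℚ) + 1) := by
    have := Dv.intCast hp (3 * a + 1)
    push_cast at this
    exact this
  have t1 := da.mul_left hp e12
  have t2 := da.mul_left hp e23
  have t3 := da.mul_left hp ev
  have t4 := db.mul_left hp ek
  have t5 := db.mul_left hp e12
  have e : S a a a - (3 * (a : RatFunc ℚ) + 1) * K =
      (S a a a - (f0 + uu n * ((a : RatFunc ℚ) * f1 + (a : RatFunc ℚ) * f2 +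
        (a : RatFunc ℚ) * f3))) - (3 * (a : RatFunc ℚ) + 1) * (K - (f0 + (uu n * f1 - uu n * f2)))
        - (3 * (a : RatFunc ℚ) + 1) * (uu n * f1 - uu n * f2)
        - ((a : RatFunc ℚ) * (f0 - uu n * f1) + (a : RatFunc ℚ) * (f0 - uu n * f1) +
          (a : RatFunc ℚ) * (f0 - uu n * f1))
        - ((a : RatFunc ℚ) * (uu n * f1 - uu n * f2) + (a : RatFunc ℚ) * (uu n * f1 - uu n * f2))
        - (a : RatFunc ℚ) * (uu n * f2 - uu n * f3) := by
    ring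
  rw [e]
  exact ((((h3.sub hp t4).sub hp t5).sub hp ((t3.add hp t3).add hp t3)).sub hp
    (t1.add hp t1)).sub hp t2

/-- the general summand -/
noncomputable def Fg (n : ℕ) (b : ℕ) (r s t : ℤ) : RatFunc ℚ :=
  (-1) ^ b * (1 - qq ^ ((3 * b + 1 : ℤ) + (1 * r + 1 * s + 1 * t) * n)) *
    ((∏ i ∈ Finset.range b, (1 - qq ^ ((2 * i + 1 : ℤ) + (0 * r + 1 * s + 1 * t) * n))) *
     (∏ i ∈ Finset.range b, (1 - qq ^ ((2 * i + 1 : ℤ) + (1 * r + 0 * s + 1 * t) * n))) *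
     (∏ i ∈ Finset.range b, (1 - qq ^ ((2 * i + 1 : ℤ) + (1 * r + 1 * s + 0 * t) * n)))) *
    ((∏ i ∈ Finset.range b, (1 - qq ^ ((i + 1 : ℤ) + (1 * r + 0 * s + 0 * t) * n)))⁻¹ *
     (∏ i ∈ Finset.range b, (1 - qq ^ ((i + 1 : ℤ) + (0 * r + 1 * s + 0 * t) * n)))⁻¹ *
     (∏ i ∈ Finset.range b, (1 - qq ^ ((i + 1 : ℤ) + (0 * r + 0 * s + 1 * t) * n)))⁻¹)

theorem un_PB {n : ℕ} (hn : 0 < n) {b : ℕ} (hb : b < n) (k : ℤ) :
    Un (cyclotomic n ℚ) (∏ i ∈ Finset.range b, (1 - qq ^ ((i + 1 : ℤ) + k * n))) := by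
  apply Un.prod (prime_cyc hn)
  intro i hi
  rw [Finset.mem_range] at hi
  apply un_one_sub hn
  intro h
  have h1 : (n : ℤ) ∣ (i + 1 : ℤ) := by
    have := dvd_sub h (dvd_mul_left (n : ℤ) k)
    rwa [add_sub_cancel_right] at this
  have h2 : n ∣ i + 1 := by exact_mod_cast h1
  have := Nat.le_of_dvd (by omega) h2
  omega

theorem lin_Fg {n : ℕ} (hn : 0 < n) {b : ℕ} (hb : b < n) : Lin n (Fg n b) := by
  have hp := prime_cyc hn
  have l0 : Lin n (fun _ _ _ => ((-1) ^ b : RatFunc ℚ)) := by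
    apply Lin.const hn
    have := Dv.intCast hp ((-1) ^ b)
    push_cast at this
    exact this
  have l1 := Lin.base hn (3 * b + 1 : ℤ) 1 1 1
  have l2 := Lin.prod hn (S := Finset.range b)
    (fun i _ => Lin.base hn (2 * (i : ℤ) + 1) 0 1 1)
  have l3 := Lin.prod hn (S := Finset.range b)
    (fun i _ => Lin.base hn (2 * (i : ℤ) + 1) 1 0 1)
  have l4 := Lin.prod hn (S := Finset.range b)
    (fun i _ => Lin.base hn (2 * (i : ℤ) + 1) 1 1 0)
  have l5 := Lin.inv hn (Lin.prod hn (S := Finset.range b)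
    (fun i _ => Lin.base hn ((i : ℤ) + 1) 1 0 0)) (fun r s t => un_PB hn hb _)
  have l6 := Lin.inv hn (Lin.prod hn (S := Finset.range b)
    (fun i _ => Lin.base hn ((i : ℤ) + 1) 0 1 0)) (fun r s t => un_PB hn hb _)
  have l7 := Lin.inv hn (Lin.prod hn (S := Finset.range b)
    (fun i _ => Lin.base hn ((i : ℤ) + 1) 0 0 1)) (fun r s t => un_PB hn hb _)
  exact ((l0.mul hn l1).mul hn ((l2.mul hn l3).mul hn l4)).mul hn ((l5.mul hn l6).mul hn l7)

end Pool.Agent.MPc82d9a
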