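import Pool.Agent.Lib.MP_c82d9a_nt.Main

/-! The congruence for `n > 1`, assembled; and the case `n = 1`. -/

set_option maxHeartbeats 1000000

namespace Pool.Agent.MPc82d9a

open Polynomial

theorem qPoch_A (j : ℕ) : qPoch RatFunc.X (RatFunc.X ^ 2) j = PA qq 1 j := by
  unfold qPoch PA
  apply Finset.prod_congr rfl
  intro i _
  rw [one_mul, ← pow_mul, pow_succ']

theorem qPoch_B (j : ℕ) : qPoch RatFunc.X RatFunc.X j = PB qq 1 j := by
  unfold qPoch PB
  apply Finset.prod_congr rfl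
  intro i _
  rw [one_mul, pow_succ']

theorem c_eq (j : ℕ) : c j = rr j ^ 3 := by
  rw [c, qPoch_A, qPoch_B, rr]

theorem qInt_mul (k : ℕ) : (1 - qq) * qInt k = 1 - qq ^ k := by
  unfold qInt
  rw [mul_neg_geom_sum]

theorem sum_blocks (f : ℕ → RatFunc ℚ) (m n : ℕ) :
    ∑ j ∈ Finset.range (m * n), f j =
      ∑ a ∈ Finset.range m, ∑ b ∈ Finset.range n, f (a * n + b) := by
  induction m with
  | zero => simp
  | succ m ih =>
    rw [Finset.sum_range_succ, ← ih, add_mul, one_mul, Finset.sum_range_add]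

theorem term_eq (N a b : ℕ) :
    (1 - qq) * ((-1) ^ (a * (2 * N + 1) + b) * qInt (3 * (a * (2 * N + 1) + b) + 1) *
      c (a * (2 * N + 1) + b)) =
    (-1) ^ a * rr (a * (2 * N + 1)) ^ 3 * Fg (2 * N + 1) b a a a := by
  set n := 2 * N + 1 with hnN
  have hs : ((-1 : RatFunc ℚ)) ^ (a * n + b) = (-1) ^ a * (-1) ^ b := by
    rw [pow_add, mul_comm a n, pow_mul]
    congr 2
    rw [hnN]
    exact Odd.neg_one_pow ⟨N, rfl⟩
  have h1 : (1 - qq) * ((-1) ^ (a * n + b) * qInt (3 * (a * n + b) + 1) * c (a * n + b)) =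
      (-1) ^ (a * n + b) * ((1 - qq) * qInt (3 * (a * n + b) + 1)) * c (a * n + b) := by ring
  have z1 : qq ^ (((a : ℤ) + a + a) * (n : ℤ)) = qq ^ (3 * (a * n)) := by
    rw [← zpow_natCast]
    congr 1
    push_cast
    ring
  have z2 : qq ^ (((a : ℤ) + a) * (n : ℤ)) = qq ^ (2 * (a * n)) := by
    rw [← zpow_natCast]
    congr 1
    push_cast
    ring
  have z3 : qq ^ ((a : ℤ) * (n : ℤ)) = qq ^ (a * n) := by
    rw [← zpow_natCast]
    congr 1
  have e4 : qq ^ (3 * (a * n + b) + 1) = qq ^ (3 * (a * n)) * qq ^ (3 * b + 1) := by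
    rw [← pow_add]
    congr 1
    ring
  rw [h1, qInt_mul, c_eq, hs, Fg_eq, z1, z2, z3, rr, rr, PA_add, PB_add, e4, one_mul, one_mul]
  rw [div_eq_mul_inv, div_eq_mul_inv, mul_inv]
  ring

theorem dv_one_sub_L_R (m N : ℕ) :
    Dv (cyclotomic (2 * N + 1) ℚ) 2 ((1 - qq) * (L m (2 * N + 1) - R m (2 * N + 1))) := by
  have hn : 0 < 2 * N + 1 := by omega
  have hp := prime_cyc hn
  set K : RatFunc ℚ := (-1) ^ N * qq ^ (N ^ 2) * (1 - qq ^ (2 * N + 1)) with hK
  have hL : (1 - qq) * L m (2 * N + 1) = ∑ a ∈ Finset.range m,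
      (-1) ^ a * rr (a * (2 * N + 1)) ^ 3 *
        ∑ b ∈ Finset.range (2 * N + 1), Fg (2 * N + 1) b a a a := by
    rw [L, sum_blocks, Finset.mul_sum]
    apply Finset.sum_congr rfl
    intro a _
    rw [Finset.mul_sum, Finset.mul_sum]
    apply Finset.sum_congr rfl
    intro b _
    exact term_eq N a b
  have hR : (1 - qq) * R m (2 * N + 1) = ∑ a ∈ Finset.range m,
      (-1) ^ a * algebraMap ℚ (RatFunc ℚ) (rho a) ^ 3 * ((3 * a + 1) * K) := by
    have i1 : (2 * N + 1 - 1) / 2 = N := by omega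
    have i2 : (2 * N + 1 - 1) ^ 2 / 4 = N ^ 2 := by
      have : (2 * N + 1 - 1) ^ 2 = 4 * N ^ 2 := by
        rw [Nat.add_sub_cancel]; ring
      rw [this]
      exact Nat.mul_div_cancel_left _ (by norm_num)
    have i3 : (1 - qq) * R m (2 * N + 1) = (-1) ^ N * qq ^ (N ^ 2) * ((1 - qq) * qInt (2 * N + 1)) *
        algebraMap ℚ (RatFunc ℚ) (∑ j ∈ Finset.range m, (-1) ^ j * (3 * (j : ℚ) + 1) * b j) := by
      rw [R, i1, i2]; ring
    rw [i3, qInt_mul, ← hK, map_sum, Finset.mul_sum]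
    apply Finset.sum_congr rfl
    intro a _
    rw [b_eq]
    simp only [map_mul, map_pow, map_neg, map_one, map_add, map_natCast, map_ofNat]
    ring
  rw [mul_sub, hL, hR]
  apply Cg.sum hp
  intro a _
  have hb := block_sum N (a : ℤ)
  rw [← hK] at hb
  push_cast at hb
  obtain ⟨d1, d2⟩ := rr_cg N a
  have dK : Dv (cyclotomic (2 * N + 1) ℚ) 1 K := by
    have h1 := dv_one_sub hn ((2 * N + 1 : ℕ) : ℤ) dvd_rfl
    rw [zpow_natCast] at h1
    have h2 := Dv.intCast hp ((-1) ^ N)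
    push_cast at h2
    have h3 := (un_zpow hn ((N ^ 2 : ℕ) : ℤ)).dv
    rw [zpow_natCast] at h3
    exact (h2.mul_left hp h3).mul_left hp h1
  have ds : Dv (cyclotomic (2 * N + 1) ℚ) 0 ((-1) ^ a : RatFunc ℚ) := by
    have h2 := Dv.intCast hp ((-1) ^ a)
    push_cast at h2
    exact h2
  have d3 := Cg.pow hp d2 d1 (Dv.ratCast hp _) 3
  have dr3 : Dv (cyclotomic (2 * N + 1) ℚ) 0 (rr (a * (2 * N + 1)) ^ 3) := by
    have := d1.pow hp 3
    rwa [zero_mul] at this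
  have d31 : Dv (cyclotomic (2 * N + 1) ℚ) 0 ((3 * a + 1 : RatFunc ℚ)) := by
    have h2 := Dv.intCast hp (3 * a + 1)
    push_cast at h2
    exact h2
  have p1 : Dv (cyclotomic (2 * N + 1) ℚ) 2 ((-1) ^ a * rr (a * (2 * N + 1)) ^ 3 *
      (∑ b ∈ Finset.range (2 * N + 1), Fg (2 * N + 1) b a a a - (3 * a + 1) * K)) :=
    (ds.mul_left hp dr3).mul_left hp hb
  have p2 : Dv (cyclotomic (2 * N + 1) ℚ) 2
      ((rr (a * (2 * N + 1)) ^ 3 - algebraMap ℚ (RatFunc ℚ) (rho a) ^ 3) * K) :=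
    Dv.mul11 hp d3 dK
  have p3 := (ds.mul_left hp d31).mul_left hp p2
  have p4 := p1.add hp p3
  unfold Cg
  convert p4 using 1
  ring

theorem congr_of_gt (m N : ℕ) (hN : 0 < N) :
    Dv (cyclotomic (2 * N + 1) ℚ) 2 (L m (2 * N + 1) - R m (2 * N + 1)) := by
  have hn : 0 < 2 * N + 1 := by omega
  have hp := prime_cyc hn
  have h := dv_one_sub_L_R m N
  have hu : Un (cyclotomic (2 * N + 1) ℚ) (1 - qq) := by
    have := un_one_sub hn 1 (by
      intro h
      have := Int.le_of_dvd (by norm_num) h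
      push_cast at this
      omega)
    rwa [zpow_one] at this
  have h2 := hu.inv.dv.mul_left hp h
  rwa [← mul_assoc, inv_mul_cancel₀ hu.ne_zero, one_mul] at h2

end Pool.Agent.MPc82d9a
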