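import Mathlib

/-! Two terminating sums, for generic `q`. -/

set_option maxHeartbeats 4000000

namespace Pool.Agent.MPc82d9a

variable {F : Type*} [Field F]

/-- `(z q; q^2)_b` -/
def PA (q z : F) (b : ℕ) : F := ∏ i ∈ Finset.range b, (1 - z * q ^ (2 * i + 1))

/-- `(z q; q)_b` -/
def PB (q z : F) (b : ℕ) : F := ∏ i ∈ Finset.range b, (1 - z * q ^ (i + 1))

theorem PA_zero (q z : F) : PA q z 0 = 1 := by simp [PA]
theorem PB_zero (q z : F) : PB q z 0 = 1 := by simp [PB]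
theorem PA_succ (q z : F) (b : ℕ) : PA q z (b + 1) = PA q z b * (1 - z * q ^ (2 * b + 1)) := by
  simp [PA, Finset.prod_range_succ]
theorem PB_succ (q z : F) (b : ℕ) : PB q z (b + 1) = PB q z b * (1 - z * q ^ (b + 1)) := by
  simp [PB, Finset.prod_range_succ]

theorem PA_shift (q z : F) (b : ℕ) :
    (1 - z * q) * PA q (z * q ^ 2) b = PA q z b * (1 - z * q ^ (2 * b + 1)) := by
  induction b with
  | zero => simp [PA_zero]
  | succ b ih =>
    rw [PA_succ, PA_succ, ← mul_assoc, ih]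
    ring

theorem PB_shift (q z : F) (b : ℕ) :
    (1 - z * q) * PB q (z * q) b = PB q z b * (1 - z * q ^ (b + 1)) := by
  induction b with
  | zero => simp [PB_zero]
  | succ b ih =>
    rw [PB_succ, PB_succ, ← mul_assoc, ih]
    ring

theorem PB_shift2 (q z : F) (b : ℕ) :
    (1 - z * q) * (1 - z * q ^ 2) * PB q (z * q ^ 2) b =
      PB q z b * (1 - z * q ^ (b + 1)) * (1 - z * q ^ (b + 2)) := by
  have h1 := PB_shift q z b
  have h2 := PB_shift q (z * q) b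
  have e : z * q * q = z * q ^ 2 := by ring
  rw [e] at h2
  calc (1 - z * q) * (1 - z * q ^ 2) * PB q (z * q ^ 2) b
      = (1 - z * q) * ((1 - z * q ^ 2) * PB q (z * q ^ 2) b) := by ring
    _ = (1 - z * q) * (PB q (z * q) b * (1 - z * q * q ^ (b + 1))) := by rw [h2]
    _ = ((1 - z * q) * PB q (z * q) b) * (1 - z * q * q ^ (b + 1)) := by ring
    _ = PB q z b * (1 - z * q ^ (b + 1)) * (1 - z * q * q ^ (b + 1)) := by rw [h1]
    _ = _ := by ring

theorem PB_ne_zero {q z : F} {b : ℕ} (h : ∀ i, 1 ≤ i → i ≤ b → 1 - z * q ^ i ≠ 0) :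
    PB q z b ≠ 0 := by
  unfold PB
  rw [Finset.prod_ne_zero_iff]
  intro i hi
  rw [Finset.mem_range] at hi
  exact h (i + 1) (by omega) (by omega)

/-! ### The vanishing sum -/

/-- the summand without its linear factor -/
def tV (q z : F) (b : ℕ) : F :=
  (-1) ^ b * PA q 1 b * PA q z b ^ 2 / (PB q z b * PB q 1 b ^ 2)

/-- the summand -/
def FV (q z : F) (b : ℕ) : F := (1 - z * q ^ (3 * b + 1)) * tV q z b

/-- the companion -/
def GV (q z : F) (b : ℕ) : F :=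
  -(z * q) * q ^ b * (1 - q ^ b) ^ 2 * tV q z b / (1 - z * q ^ (b + 1))

theorem tV_succ (q z : F) (b : ℕ) (hz : 1 - z * q ^ (b + 1) ≠ 0) (h1 : 1 - q ^ (b + 1) ≠ 0)
    (hB : PB q z b ≠ 0) (hB1 : PB q 1 b ≠ 0) :
    tV q z (b + 1) = -tV q z b * (1 - q ^ (2 * b + 1)) * (1 - z * q ^ (2 * b + 1)) ^ 2 /
      ((1 - z * q ^ (b + 1)) * (1 - q ^ (b + 1)) ^ 2) := by
  unfold tV
  rw [PA_succ, PA_succ, PB_succ, PB_succ]
  simp only [one_mul]
  field_simp
  ring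

theorem WZ_V (q z : F) (b : ℕ) (hz : ∀ i, 1 ≤ i → i ≤ b + 2 → 1 - z * q ^ i ≠ 0)
    (h1 : ∀ i, 1 ≤ i → i ≤ b + 1 → 1 - q ^ i ≠ 0) :
    (1 - z * q) / (1 - z * q ^ 2) * FV q (z * q ^ 2) b - FV q z b = GV q z (b + 1) - GV q z b := by
  have hB : PB q z b ≠ 0 := PB_ne_zero fun i hi hi' => hz i hi (by omega)
  have hB1 : PB q 1 b ≠ 0 := PB_ne_zero fun i hi hi' => by simpa using h1 i hi (by omega)
  have z1 : 1 - z * q ≠ 0 := by simpa using hz 1 le_rfl (by omega)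
  have z2 : 1 - z * q ^ 2 ≠ 0 := hz 2 (by omega) (by omega)
  have zb1 : 1 - z * q ^ (b + 1) ≠ 0 := hz _ (by omega) (by omega)
  have zb2 : 1 - z * q ^ (b + 2) ≠ 0 := hz _ (by omega) (by omega)
  have qb1 : 1 - q ^ (b + 1) ≠ 0 := h1 _ (by omega) (by omega)
  have eA : PA q (z * q ^ 2) b = PA q z b * (1 - z * q ^ (2 * b + 1)) / (1 - z * q) := by
    rw [eq_div_iff z1, mul_comm, PA_shift]
  have eB : PB q (z * q ^ 2) b = PB q z b * (1 - z * q ^ (b + 1)) * (1 - z * q ^ (b + 2)) /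
      ((1 - z * q) * (1 - z * q ^ 2)) := by
    rw [eq_div_iff (mul_ne_zero z1 z2), mul_comm, PB_shift2]
  have et : tV q (z * q ^ 2) b = tV q z b * (1 - z * q ^ (2 * b + 1)) ^ 2 * (1 - z * q ^ 2) /
      ((1 - z * q) * (1 - z * q ^ (b + 1)) * (1 - z * q ^ (b + 2))) := by
    unfold tV
    rw [eA, eB]
    field_simp
  unfold FV GV
  rw [et, tV_succ q z b zb1 qb1 hB hB1]
  have e3 : z * q ^ (b + 1 + 1) = z * q ^ (b + 2) := by ring
  rw [e3]
  generalize tV q z b = t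
  have x1 : q ^ (b + 1) = q * q ^ b := by ring
  have x2 : q ^ (b + 2) = q ^ 2 * q ^ b := by ring
  have x3 : q ^ (2 * b + 1) = q * (q ^ b) ^ 2 := by ring
  have x4 : q ^ (3 * b + 1) = q * (q ^ b) ^ 3 := by ring
  rw [x1] at zb1 qb1
  rw [x2] at zb2
  rw [x1, x2, x3, x4]
  generalize q ^ b = X at *
  have zb1' : 1 - z * q * X ≠ 0 := by rw [mul_assoc]; exact zb1
  have zb2' : 1 - z * q ^ 2 * X ≠ 0 := by rw [mul_assoc]; exact zb2
  field_simp
  ring

theorem sum_V (q z : F) (M : ℕ) (hz : ∀ i, 1 ≤ i → i ≤ M + 1 → 1 - z * q ^ i ≠ 0)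
    (h1 : ∀ i, 1 ≤ i → i ≤ M → 1 - q ^ i ≠ 0) :
    (1 - z * q) / (1 - z * q ^ 2) * ∑ b ∈ Finset.range M, FV q (z * q ^ 2) b -
      ∑ b ∈ Finset.range M, FV q z b = GV q z M := by
  rw [Finset.mul_sum, ← Finset.sum_sub_distrib]
  have : ∀ b ∈ Finset.range M, (1 - z * q) / (1 - z * q ^ 2) * FV q (z * q ^ 2) b - FV q z b =
      GV q z (b + 1) - GV q z b := by
    intro b hb
    rw [Finset.mem_range] at hb
    exact WZ_V q z b (fun i hi hi' => hz i hi (by omega)) (fun i hi hi' => h1 i hi (by omega))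
  rw [Finset.sum_congr rfl this, Finset.sum_range_sub]
  simp [GV]

theorem vanishing (q : F) (hq0 : q ≠ 0) (hq : ∀ k, 0 < k → 1 - q ^ k ≠ 0) (N : ℕ) :
    ∑ b ∈ Finset.range (N + 1), FV q (q ^ (2 * N + 1))⁻¹ b = 0 := by
  induction N with
  | zero => simp [FV, hq0]
  | succ N ih =>
    have hz : ∀ i, 1 ≤ i → i ≤ N + 1 + 1 → 1 - (q ^ (2 * (N + 1) + 1))⁻¹ * q ^ i ≠ 0 := by
      intro i hi hi' h
      have hlt : i < 2 * (N + 1) + 1 := by omega
      have e : q ^ (2 * (N + 1) + 1) = q ^ i * q ^ (2 * (N + 1) + 1 - i) := by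
        rw [← pow_add]; congr 1; omega
      rw [e] at h
      have h2 := hq (2 * (N + 1) + 1 - i) (by omega)
      apply h2
      have hqi : q ^ i ≠ 0 := pow_ne_zero _ hq0
      have hqj : q ^ (2 * (N + 1) + 1 - i) ≠ 0 := pow_ne_zero _ hq0
      field_simp at h
      linear_combination -h
    have key := sum_V q (q ^ (2 * (N + 1) + 1))⁻¹ (N + 1) hz (fun i hi _ => hq i hi)
    have e : (q ^ (2 * (N + 1) + 1))⁻¹ * q ^ 2 = (q ^ (2 * N + 1))⁻¹ := by
      have : q ^ (2 * (N + 1) + 1) = q ^ (2 * N + 1) * q ^ 2 := by ring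
      rw [this]
      have h1 : q ^ (2 * N + 1) ≠ 0 := pow_ne_zero _ hq0
      field_simp
    rw [e, ih, mul_zero, zero_sub] at key
    rw [Finset.sum_range_succ, ← neg_eq_zero, neg_add, key]
    unfold GV FV
    have hX : q ^ (N + 1) ≠ 0 := pow_ne_zero _ hq0
    have hz1 := hz (N + 1 + 1) (by omega) le_rfl
    have hq1 := hq (N + 1) (by omega)
    have x1 : (q ^ (2 * (N + 1) + 1))⁻¹ * q ^ (3 * (N + 1) + 1) = q ^ (N + 1) := by
      have : q ^ (3 * (N + 1) + 1) = q ^ (2 * (N + 1) + 1) * q ^ (N + 1) := by ring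
      rw [this]
      have h1 : q ^ (2 * (N + 1) + 1) ≠ 0 := pow_ne_zero _ hq0
      field_simp
    have x2 : (q ^ (2 * (N + 1) + 1))⁻¹ * q ^ (N + 1 + 1) = (q ^ (N + 1))⁻¹ := by
      have : q ^ (2 * (N + 1) + 1) = q ^ (N + 1 + 1) * q ^ (N + 1) := by ring
      rw [this]
      have h1 : q ^ (N + 1 + 1) ≠ 0 := pow_ne_zero _ hq0
      field_simp
    have x3 : (q ^ (2 * (N + 1) + 1))⁻¹ * q * q ^ (N + 1) = (q ^ (N + 1))⁻¹ := by
      rw [mul_assoc, ← x2]; ring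
    rw [x1, x2]
    rw [x2] at hz1
    have x4 : -((q ^ (2 * (N + 1) + 1))⁻¹ * q) * q ^ (N + 1) = -(q ^ (N + 1))⁻¹ := by
      rw [neg_mul, x3]
    rw [x4]
    generalize tV q (q ^ (2 * (N + 1) + 1))⁻¹ (N + 1) = t
    generalize q ^ (N + 1) = X at *
    have hX1 : X - 1 ≠ 0 := fun h => hq1 (by linear_combination -h)
    field_simp
    ring

end Pool.Agent.MPc82d9a
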