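import Pool.Agent.Lib.MP_c82d9a_nt.Local

/-! First order expansions modulo the square of a cyclotomic polynomial. -/

set_option maxHeartbeats 1000000

namespace Pool.Agent.MPc82d9a

open Polynomial

/-- the indeterminate -/
noncomputable abbrev qq : RatFunc ℚ := RatFunc.X

theorem emb_X : emb X = qq := RatFunc.algebraMap_X

theorem prime_cyc {n : ℕ} (hn : 0 < n) : Prime (cyclotomic n ℚ) :=
  (cyclotomic.irreducible_rat hn).prime

theorem cyc_dvd_iff {n : ℕ} (hn : 0 < n) (k : ℕ) :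
    cyclotomic n ℚ ∣ X ^ k - 1 ↔ n ∣ k := by
  constructor
  · intro h
    have hz := Complex.isPrimitiveRoot_exp n hn.ne'
    set ζ := Complex.exp (2 * Real.pi * Complex.I / n)
    have h1 : aeval ζ (cyclotomic n ℚ) = 0 := by
      have := hz.isRoot_cyclotomic hn
      rw [← map_cyclotomic n (algebraMap ℚ ℂ), IsRoot.def, eval_map_algebraMap] at this
      exact this
    obtain ⟨g, hg⟩ := h
    have h2 : aeval ζ (X ^ k - 1 : ℚ[X]) = 0 := by
      rw [hg, map_mul, h1, zero_mul]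
    have h3 : ζ ^ k = 1 := by
      simpa [sub_eq_zero] using h2
    exact hz.dvd_of_pow_eq_one k h3
  · rintro ⟨j, rfl⟩
    have h1 : cyclotomic n ℚ ∣ X ^ n - 1 := cyclotomic.dvd_X_pow_sub_one n ℚ
    have h2 : (X : ℚ[X]) ^ n - 1 ∣ X ^ (n * j) - 1 := by
      have := sub_dvd_pow_sub_pow ((X : ℚ[X]) ^ n) 1 j
      rwa [one_pow, ← pow_mul] at this
    exact h1.trans h2

theorem cyc_not_dvd_X {n : ℕ} (hn : 0 < n) : ¬ cyclotomic n ℚ ∣ X := by
  intro h
  have hz := Complex.isPrimitiveRoot_exp n hn.ne'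
  set ζ := Complex.exp (2 * Real.pi * Complex.I / n)
  have h1 : aeval ζ (cyclotomic n ℚ) = 0 := by
    have := hz.isRoot_cyclotomic hn
    rw [← map_cyclotomic n (algebraMap ℚ ℂ), IsRoot.def, eval_map_algebraMap] at this
    exact this
  obtain ⟨g, hg⟩ := h
  have h2 : aeval ζ (X : ℚ[X]) = 0 := by
    rw [hg, map_mul, h1, zero_mul]
  rw [aeval_X] at h2
  exact (hz.ne_zero hn.ne') h2

section

variable {n : ℕ} (hn : 0 < n)

include hn

theorem un_qq : Un (cyclotomic n ℚ) qq := by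
  rw [← emb_X]
  exact Un.poly (prime_cyc hn) (cyc_not_dvd_X hn)

theorem un_zpow (k : ℤ) : Un (cyclotomic n ℚ) (qq ^ k) := (un_qq hn).zpow (prime_cyc hn) k

theorem un_one_sub (k : ℤ) (h : ¬ (n : ℤ) ∣ k) : Un (cyclotomic n ℚ) (1 - qq ^ k) := by
  have key : ∀ j : ℕ, ¬ n ∣ j → Un (cyclotomic n ℚ) (1 - qq ^ j) := by
    intro j hj
    have : (1 - qq ^ j : RatFunc ℚ) = -emb (X ^ j - 1) := by
      rw [map_sub, map_pow, emb_X, map_one]; ring
    rw [this]
    apply Un.neg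
    apply Un.poly (prime_cyc hn)
    rwa [cyc_dvd_iff hn]
  rcases Int.eq_nat_or_neg k with ⟨j, hj | hj⟩
  · rw [hj, zpow_natCast]
    apply key
    rw [hj] at h
    exact fun h' => h (Int.natCast_dvd_natCast.mpr h')
  · have h' : ¬ n ∣ j := by
      rw [hj, Int.dvd_neg] at h
      exact fun h' => h (Int.natCast_dvd_natCast.mpr h')
    have e : 1 - qq ^ k = -(qq ^ k * (1 - qq ^ j)) := by
      rw [hj, zpow_neg, zpow_natCast]
      have : qq ^ j ≠ 0 := pow_ne_zero _ RatFunc.X_ne_zero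
      field_simp
      ring
    rw [e]
    exact ((un_zpow hn k).mul (prime_cyc hn) (key j h')).neg

theorem dv_one_sub (k : ℤ) (h : (n : ℤ) ∣ k) : Dv (cyclotomic n ℚ) 1 (1 - qq ^ k) := by
  have key : ∀ j : ℕ, n ∣ j → Dv (cyclotomic n ℚ) 1 (1 - qq ^ j) := by
    intro j hj
    have : (1 - qq ^ j : RatFunc ℚ) = -emb (X ^ j - 1) := by
      rw [map_sub, map_pow, emb_X, map_one]; ring
    rw [this]
    apply Dv.neg
    apply Dv.poly_of_dvd (prime_cyc hn)
    rwa [pow_one, cyc_dvd_iff hn]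
  rcases Int.eq_nat_or_neg k with ⟨j, hj | hj⟩
  · rw [hj, zpow_natCast]
    apply key
    rw [hj] at h
    exact Int.natCast_dvd_natCast.mp h
  · have h' : n ∣ j := by
      rw [hj, Int.dvd_neg] at h
      exact Int.natCast_dvd_natCast.mp h
    have e : 1 - qq ^ k = -(qq ^ k * (1 - qq ^ j)) := by
      rw [hj, zpow_neg, zpow_natCast]
      have : qq ^ j ≠ 0 := pow_ne_zero _ RatFunc.X_ne_zero
      field_simp
      ring
    rw [e]
    exact ((un_zpow hn k).dv.mul_left (prime_cyc hn) (key j h')).neg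

theorem dv_one_sub_zero (k : ℤ) : Dv (cyclotomic n ℚ) 0 (1 - qq ^ k) :=
  (Dv.one (prime_cyc hn)).sub (prime_cyc hn) (un_zpow hn k).dv

end

/-- `1 - q^n` -/
noncomputable def uu (n : ℕ) : RatFunc ℚ := 1 - qq ^ (n : ℤ)

theorem dv_uu {n : ℕ} (hn : 0 < n) : Dv (cyclotomic n ℚ) 1 (uu n) :=
  dv_one_sub hn _ dvd_rfl

theorem dv_lin_step {Φ : ℚ[X]} (hp : Prime Φ) (u : RatFunc ℚ) (g : ℤ → RatFunc ℚ) (h0 : g 0 = 0)
    (step : ∀ l : ℤ, g (l + 1) = g l + u - g l * u) (hd : ∀ l : ℤ, Dv Φ 2 (g l * u)) (l : ℤ) :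
    Dv Φ 2 (g l - l * u) := by
  induction l using Int.induction_on with
  | zero =>
    have e : g 0 - ((0 : ℤ) : RatFunc ℚ) * u = 0 := by rw [h0, Int.cast_zero]; ring
    rw [e]
    exact Dv.zero hp 2
  | succ i ih =>
    have e : g ((i : ℤ) + 1) - (((i : ℤ) + 1 : ℤ) : RatFunc ℚ) * u =
        (g i - ((i : ℤ) : RatFunc ℚ) * u) - g i * u := by
      rw [step, Int.cast_add, Int.cast_one]; ring
    rw [e]
    exact ih.sub hp (hd i)
  | pred i ih =>
    have h1 := step (-(i : ℤ) - 1)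
    rw [sub_add_cancel] at h1
    have e : g (-(i : ℤ) - 1) - ((-(i : ℤ) - 1 : ℤ) : RatFunc ℚ) * u =
        (g (-(i : ℤ)) - ((-(i : ℤ) : ℤ) : RatFunc ℚ) * u) + g (-(i : ℤ) - 1) * u := by
      rw [h1, Int.cast_sub, Int.cast_one]; ring
    rw [e]
    exact ih.add hp (hd (-(i : ℤ) - 1))

theorem cg_uu {n : ℕ} (hn : 0 < n) (l : ℤ) :
    Cg (cyclotomic n ℚ) 2 (1 - qq ^ (l * n)) (l * uu n) := by
  have hp := prime_cyc hn
  have hq0 : qq ≠ 0 := RatFunc.X_ne_zero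
  unfold Cg
  apply dv_lin_step hp (uu n) (fun l => 1 - qq ^ (l * (n : ℤ)))
  · show 1 - qq ^ ((0 : ℤ) * (n : ℤ)) = 0
    rw [zero_mul, zpow_zero, sub_self]
  · intro l
    show 1 - qq ^ ((l + 1) * (n : ℤ)) =
      (1 - qq ^ (l * (n : ℤ))) + uu n - (1 - qq ^ (l * (n : ℤ))) * uu n
    have : (l + 1) * (n : ℤ) = l * n + n := by ring
    rw [this, zpow_add₀ hq0, uu]
    ring
  · intro l
    have h1 : Dv (cyclotomic n ℚ) 1 (1 - qq ^ (l * (n : ℤ))) :=
      dv_one_sub hn _ (dvd_mul_left (n : ℤ) l)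
    have h2 : Dv (cyclotomic n ℚ) (1 + 1) ((1 - qq ^ (l * (n : ℤ))) * uu n) :=
      h1.mul hp (dv_uu hn)
    exact h2

/-- affine first order behaviour in three integer parameters -/
def Lin (n : ℕ) (f : ℤ → ℤ → ℤ → RatFunc ℚ) : Prop :=
  ∃ f0 f1 f2 f3 : RatFunc ℚ, Dv (cyclotomic n ℚ) 0 f0 ∧ Dv (cyclotomic n ℚ) 0 f1 ∧
    Dv (cyclotomic n ℚ) 0 f2 ∧ Dv (cyclotomic n ℚ) 0 f3 ∧
    ∀ r s t : ℤ, Cg (cyclotomic n ℚ) 2 (f r s t) (f0 + uu n * (r * f1 + s * f2 + t * f3))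

section

variable {n : ℕ} (hn : 0 < n)

include hn

theorem Lin.const {c : RatFunc ℚ} (hc : Dv (cyclotomic n ℚ) 0 c) : Lin n (fun _ _ _ => c) := by
  have hp := prime_cyc hn
  refine ⟨c, 0, 0, 0, hc, Dv.zero hp 0, Dv.zero hp 0, Dv.zero hp 0, fun r s t => ?_⟩
  have : c + uu n * (r * 0 + s * 0 + t * 0) = c := by ring
  rw [this]
  exact Cg.refl hp 2 c

theorem Lin.dv {f : ℤ → ℤ → ℤ → RatFunc ℚ} (h : Lin n f) (r s t : ℤ) :
    Dv (cyclotomic n ℚ) 0 (f r s t) := by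
  have hp := prime_cyc hn
  obtain ⟨f0, f1, f2, f3, h0, h1, h2, h3, h⟩ := h
  have h4 := (h r s t).mono (Nat.zero_le 2)
  apply Cg.dv hp h4
  apply h0.add hp
  apply ((dv_uu hn).mono (Nat.zero_le 1)).mul_left hp
  exact (((Dv.intCast hp r).mul_left hp h1).add hp ((Dv.intCast hp s).mul_left hp h2)).add hp
    ((Dv.intCast hp t).mul_left hp h3)

theorem Lin.add {f g : ℤ → ℤ → ℤ → RatFunc ℚ} (hf : Lin n f) (hg : Lin n g) :
    Lin n (fun r s t => f r s t + g r s t) := by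
  have hp := prime_cyc hn
  obtain ⟨f0, f1, f2, f3, h0, h1, h2, h3, h⟩ := hf
  obtain ⟨g0, g1, g2, g3, k0, k1, k2, k3, k⟩ := hg
  refine ⟨f0 + g0, f1 + g1, f2 + g2, f3 + g3, h0.add hp k0, h1.add hp k1, h2.add hp k2,
    h3.add hp k3, fun r s t => ?_⟩
  have := (h r s t).add hp (k r s t)
  convert this using 1
  ring

theorem Lin.sum {ι : Type*} {S : Finset ι} {f : ι → ℤ → ℤ → ℤ → RatFunc ℚ}
    (h : ∀ i ∈ S, Lin n (f i)) : Lin n (fun r s t => ∑ i ∈ S, f i r s t) := by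
  classical
  induction S using Finset.induction_on with
  | empty => simpa using Lin.const hn (Dv.zero (prime_cyc hn) 0)
  | insert a S ha ih =>
    simp only [Finset.sum_insert ha]
    exact (h a (Finset.mem_insert_self _ _)).add hn
      (ih fun i hi => h i (Finset.mem_insert_of_mem hi))

theorem Lin.mul {f g : ℤ → ℤ → ℤ → RatFunc ℚ} (hf : Lin n f) (hg : Lin n g) :
    Lin n (fun r s t => f r s t * g r s t) := by
  have hp := prime_cyc hn
  have df := hf.dv hn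
  have dg := hg.dv hn
  obtain ⟨f0, f1, f2, f3, h0, h1, h2, h3, h⟩ := hf
  obtain ⟨g0, g1, g2, g3, k0, k1, k2, k3, k⟩ := hg
  refine ⟨f0 * g0, f0 * g1 + g0 * f1, f0 * g2 + g0 * f2, f0 * g3 + g0 * f3,
    h0.mul_left hp k0, (h0.mul_left hp k1).add hp (k0.mul_left hp h1),
    (h0.mul_left hp k2).add hp (k0.mul_left hp h2),
    (h0.mul_left hp k3).add hp (k0.mul_left hp h3), fun r s t => ?_⟩
  have dl : Dv (cyclotomic n ℚ) 0 (r * f1 + s * f2 + t * f3) :=
    (((Dv.intCast hp r).mul_left hp h1).add hp ((Dv.intCast hp s).mul_left hp h2)).add hp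
      ((Dv.intCast hp t).mul_left hp h3)
  have dm : Dv (cyclotomic n ℚ) 0 (r * g1 + s * g2 + t * g3) :=
    (((Dv.intCast hp r).mul_left hp k1).add hp ((Dv.intCast hp s).mul_left hp k2)).add hp
      ((Dv.intCast hp t).mul_left hp k3)
  have du0 := (dv_uu hn).mono (Nat.zero_le 1)
  have e1 := (h r s t).mul_right hp (dg r s t)
  have e2 := (h0.add hp (du0.mul_left hp dl)).mul_left hp (k r s t)
  have e3 : Dv (cyclotomic n ℚ) 2 (uu n * uu n * ((r * f1 + s * f2 + t * f3) *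
      (r * g1 + s * g2 + t * g3))) :=
    ((dv_uu hn).mul hp (dv_uu hn)).mul_right hp (dl.mul_left hp dm)
  have := (e1.add hp e2).add hp e3
  unfold Cg
  convert this using 1
  ring

theorem Lin.prod {ι : Type*} {S : Finset ι} {f : ι → ℤ → ℤ → ℤ → RatFunc ℚ}
    (h : ∀ i ∈ S, Lin n (f i)) : Lin n (fun r s t => ∏ i ∈ S, f i r s t) := by
  classical
  induction S using Finset.induction_on with
  | empty => simpa using Lin.const hn (Dv.one (prime_cyc hn))
  | insert a S ha ih =>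
    simp only [Finset.prod_insert ha]
    exact (h a (Finset.mem_insert_self _ _)).mul hn
      (ih fun i hi => h i (Finset.mem_insert_of_mem hi))

theorem Lin.inv {f : ℤ → ℤ → ℤ → RatFunc ℚ} (hf : Lin n f)
    (hu : ∀ r s t, Un (cyclotomic n ℚ) (f r s t)) : Lin n (fun r s t => (f r s t)⁻¹) := by
  have hp := prime_cyc hn
  obtain ⟨f0, f1, f2, f3, h0, h1, h2, h3, h⟩ := hf
  -- replace `f0` by `f 0 0 0`
  have hc0 : Cg (cyclotomic n ℚ) 2 (f 0 0 0) f0 := by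
    have := h 0 0 0
    simpa using this
  set c := f 0 0 0 with hc
  have uc : Un (cyclotomic n ℚ) c := hu 0 0 0
  have c0 := uc.ne_zero
  have dci : Dv (cyclotomic n ℚ) 0 c⁻¹ := uc.inv.dv
  have dci2 : Dv (cyclotomic n ℚ) 0 (c⁻¹ * c⁻¹) := dci.mul_left hp dci
  refine ⟨c⁻¹, -(c⁻¹ * c⁻¹ * f1), -(c⁻¹ * c⁻¹ * f2), -(c⁻¹ * c⁻¹ * f3), dci,
    (dci2.mul_left hp h1).neg, (dci2.mul_left hp h2).neg, (dci2.mul_left hp h3).neg,
    fun r s t => ?_⟩
  have dl : Dv (cyclotomic n ℚ) 0 (r * f1 + s * f2 + t * f3) :=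
    (((Dv.intCast hp r).mul_left hp h1).add hp ((Dv.intCast hp s).mul_left hp h2)).add hp
      ((Dv.intCast hp t).mul_left hp h3)
  have du0 := (dv_uu hn).mono (Nat.zero_le 1)
  have ur := hu r s t
  have r0 := ur.ne_zero
  have e0 : Cg (cyclotomic n ℚ) 2 (f r s t) (c + uu n * (r * f1 + s * f2 + t * f3)) := by
    have := Cg.trans hp (h r s t) (Cg.add hp hc0.symm (Cg.refl hp 2 _))
    exact this
  unfold Cg at e0 ⊢
  have dT : Dv (cyclotomic n ℚ) 0
      (c⁻¹ - uu n * (r * f1 + s * f2 + t * f3) * (c⁻¹ * c⁻¹)) :=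
    dci.sub hp ((du0.mul_left hp dl).mul_left hp dci2)
  have e1 : Dv (cyclotomic n ℚ) 2 (uu n * uu n * ((r * f1 + s * f2 + t * f3) *
      (r * f1 + s * f2 + t * f3) * (c⁻¹ * c⁻¹))) :=
    ((dv_uu hn).mul hp (dv_uu hn)).mul_right hp ((dl.mul_left hp dl).mul_left hp dci2)
  have e2 := e0.mul_right hp dT
  have := (ur.inv.dv).mul_left hp (e1.sub hp e2)
  convert this using 1
  field_simp
  ring

/-- the basic linear factors -/
theorem Lin.base (k : ℤ) (α β γ : ℤ) :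
    Lin n (fun r s t => 1 - qq ^ (k + (α * r + β * s + γ * t) * n)) := by
  have hp := prime_cyc hn
  have hq0 : qq ≠ 0 := RatFunc.X_ne_zero
  have dk := (un_zpow hn k).dv
  refine ⟨1 - qq ^ k, α * qq ^ k, β * qq ^ k, γ * qq ^ k, dv_one_sub_zero hn k,
    (Dv.intCast hp _).mul_left hp dk, (Dv.intCast hp _).mul_left hp dk,
    (Dv.intCast hp _).mul_left hp dk, fun r s t => ?_⟩
  have h := dk.mul_left hp (cg_uu hn (α * r + β * s + γ * t))
  show Dv (cyclotomic n ℚ) 2 ((1 - qq ^ (k + (α * r + β * s + γ * t) * (n : ℤ))) -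
    (1 - qq ^ k + uu n * (r * (α * qq ^ k) + s * (β * qq ^ k) + t * (γ * qq ^ k))))
  have e : (1 - qq ^ (k + (α * r + β * s + γ * t) * (n : ℤ))) -
    (1 - qq ^ k + uu n * (r * (α * qq ^ k) + s * (β * qq ^ k) + t * (γ * qq ^ k))) =
    qq ^ k * (1 - qq ^ ((α * r + β * s + γ * t) * (n : ℤ)) -
      ((α * r + β * s + γ * t : ℤ) : RatFunc ℚ) * uu n) := by
    rw [zpow_add₀ hq0]
    push_cast
    ring
  rw [e]
  exact h

end

end Pool.Agent.MPc82d9a
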