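import Mathlib

/-! Divisibility by powers of an irreducible polynomial, for rational functions. -/

set_option maxHeartbeats 1000000

namespace Pool.Agent.MPc82d9a

open Polynomial

/-- abbreviation for the embedding of polynomials -/
noncomputable abbrev emb : ℚ[X] →+* RatFunc ℚ := algebraMap ℚ[X] (RatFunc ℚ)

theorem emb_inj {P Q : ℚ[X]} : emb P = emb Q ↔ P = Q :=
  (IsFractionRing.injective ℚ[X] (RatFunc ℚ)).eq_iff

theorem emb_ne_zero {P : ℚ[X]} : emb P ≠ 0 ↔ P ≠ 0 := by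
  rw [Ne, ← map_zero emb, emb_inj]

/-- `f` is regular at `Φ` and divisible by `Φ^k` there -/
def Dv (Φ : ℚ[X]) (k : ℕ) (f : RatFunc ℚ) : Prop :=
  ∃ P Q : ℚ[X], ¬ Φ ∣ Q ∧ f * emb Q = emb (Φ ^ k * P)

/-- `f` is a unit at `Φ` -/
def Un (Φ : ℚ[X]) (f : RatFunc ℚ) : Prop :=
  ∃ P Q : ℚ[X], ¬ Φ ∣ P ∧ ¬ Φ ∣ Q ∧ f * emb Q = emb P

variable {Φ : ℚ[X]}

theorem not_dvd_mul (hΦ : Prime Φ) {P Q : ℚ[X]} (hP : ¬ Φ ∣ P) (hQ : ¬ Φ ∣ Q) : ¬ Φ ∣ P * Q :=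
  fun h => (hΦ.dvd_or_dvd h).elim hP hQ

theorem Dv.zero (hΦ : Prime Φ) (k : ℕ) : Dv Φ k 0 :=
  ⟨0, 1, hΦ.not_dvd_one, by simp⟩

theorem Dv.poly (hΦ : Prime Φ) (P : ℚ[X]) : Dv Φ 0 (emb P) :=
  ⟨P, 1, hΦ.not_dvd_one, by simp⟩

theorem Dv.poly_of_dvd (hΦ : Prime Φ) {k : ℕ} {P : ℚ[X]} (h : Φ ^ k ∣ P) : Dv Φ k (emb P) := by
  obtain ⟨Q, rfl⟩ := h
  exact ⟨Q, 1, hΦ.not_dvd_one, by simp⟩

theorem Dv.add (hΦ : Prime Φ) {k : ℕ} {f g : RatFunc ℚ} (hf : Dv Φ k f) (hg : Dv Φ k g) :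
    Dv Φ k (f + g) := by
  obtain ⟨P, Q, hQ, e⟩ := hf
  obtain ⟨P', Q', hQ', e'⟩ := hg
  refine ⟨P * Q' + P' * Q, Q * Q', not_dvd_mul hΦ hQ hQ', ?_⟩
  rw [map_mul, add_mul, ← mul_assoc, e, mul_comm (emb Q), ← mul_assoc, e']
  simp only [map_mul, map_add]
  ring

theorem Dv.neg {k : ℕ} {f : RatFunc ℚ} (hf : Dv Φ k f) : Dv Φ k (-f) := by
  obtain ⟨P, Q, hQ, e⟩ := hf
  exact ⟨-P, Q, hQ, by rw [neg_mul, e, mul_neg, map_neg]⟩

theorem Dv.sub (hΦ : Prime Φ) {k : ℕ} {f g : RatFunc ℚ} (hf : Dv Φ k f) (hg : Dv Φ k g) :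
    Dv Φ k (f - g) := by
  rw [sub_eq_add_neg]; exact hf.add hΦ hg.neg

theorem Dv.mul (hΦ : Prime Φ) {k l : ℕ} {f g : RatFunc ℚ} (hf : Dv Φ k f) (hg : Dv Φ l g) :
    Dv Φ (k + l) (f * g) := by
  obtain ⟨P, Q, hQ, e⟩ := hf
  obtain ⟨P', Q', hQ', e'⟩ := hg
  refine ⟨P * P', Q * Q', not_dvd_mul hΦ hQ hQ', ?_⟩
  have : f * g * emb (Q * Q') = (f * emb Q) * (g * emb Q') := by rw [map_mul]; ring
  rw [this, e, e', ← map_mul]
  congr 1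
  ring

theorem Dv.mul_left (hΦ : Prime Φ) {k : ℕ} {f g : RatFunc ℚ} (hf : Dv Φ 0 f) (hg : Dv Φ k g) :
    Dv Φ k (f * g) := by
  have := hf.mul hΦ hg
  rwa [zero_add] at this

theorem Dv.mul_right (hΦ : Prime Φ) {k : ℕ} {f g : RatFunc ℚ} (hf : Dv Φ k f) (hg : Dv Φ 0 g) :
    Dv Φ k (f * g) := by
  have := hf.mul hΦ hg
  rwa [add_zero] at this

theorem Dv.mono {k l : ℕ} (h : l ≤ k) {f : RatFunc ℚ} (hf : Dv Φ k f) : Dv Φ l f := by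
  obtain ⟨P, Q, hQ, e⟩ := hf
  refine ⟨Φ ^ (k - l) * P, Q, hQ, ?_⟩
  rw [e, ← mul_assoc, ← pow_add]
  congr 3
  omega

theorem Dv.sum (hΦ : Prime Φ) {ι : Type*} {s : Finset ι} {k : ℕ} {f : ι → RatFunc ℚ}
    (h : ∀ i ∈ s, Dv Φ k (f i)) : Dv Φ k (∑ i ∈ s, f i) := by
  classical
  induction s using Finset.induction_on with
  | empty => simpa using Dv.zero hΦ k
  | insert a s ha ih =>
    rw [Finset.sum_insert ha]
    exact (h a (Finset.mem_insert_self _ _)).add hΦ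
      (ih fun i hi => h i (Finset.mem_insert_of_mem hi))

theorem Dv.prod (hΦ : Prime Φ) {ι : Type*} {s : Finset ι} {f : ι → RatFunc ℚ}
    (h : ∀ i ∈ s, Dv Φ 0 (f i)) : Dv Φ 0 (∏ i ∈ s, f i) := by
  classical
  induction s using Finset.induction_on with
  | empty => simpa using Dv.poly hΦ 1
  | insert a s ha ih =>
    rw [Finset.prod_insert ha]
    exact (h a (Finset.mem_insert_self _ _)).mul_left hΦ
      (ih fun i hi => h i (Finset.mem_insert_of_mem hi))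

theorem Dv.pow (hΦ : Prime Φ) {k : ℕ} {f : RatFunc ℚ} (hf : Dv Φ k f) (j : ℕ) :
    Dv Φ (k * j) (f ^ j) := by
  induction j with
  | zero => simpa using Dv.poly hΦ 1
  | succ j ih =>
    rw [pow_succ, mul_add, mul_one]
    exact ih.mul hΦ hf

theorem Dv.one (hΦ : Prime Φ) : Dv Φ 0 1 := by simpa using Dv.poly hΦ 1

theorem Dv.ratCast (hΦ : Prime Φ) (r : ℚ) : Dv Φ 0 (algebraMap ℚ (RatFunc ℚ) r) := by
  have := Dv.poly hΦ (C r)
  have e : emb (C r) = algebraMap ℚ (RatFunc ℚ) r := by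
    rw [IsScalarTower.algebraMap_apply ℚ ℚ[X] (RatFunc ℚ)]; rfl
  rwa [e] at this

theorem Dv.intCast (hΦ : Prime Φ) (r : ℤ) : Dv Φ 0 (r : RatFunc ℚ) := by
  have := Dv.ratCast hΦ (r : ℚ)
  simpa using this

theorem Dv.natCast (hΦ : Prime Φ) (r : ℕ) : Dv Φ 0 (r : RatFunc ℚ) := by
  have := Dv.ratCast hΦ (r : ℚ)
  simpa using this

theorem Un.dv {f : RatFunc ℚ} (h : Un Φ f) : Dv Φ 0 f := by
  obtain ⟨P, Q, _, hQ, e⟩ := h
  exact ⟨P, Q, hQ, by rw [e, pow_zero, one_mul]⟩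

theorem Un.ne_zero {f : RatFunc ℚ} (h : Un Φ f) : f ≠ 0 := by
  rintro rfl
  obtain ⟨P, Q, hP, _, e⟩ := h
  rw [zero_mul, eq_comm, ← map_zero emb, emb_inj] at e
  rw [e] at hP
  exact hP (dvd_zero _)

theorem Un.inv {f : RatFunc ℚ} (h : Un Φ f) : Un Φ f⁻¹ := by
  have h0 := h.ne_zero
  obtain ⟨P, Q, hP, hQ, e⟩ := h
  refine ⟨Q, P, hQ, hP, ?_⟩
  rw [← e, ← mul_assoc, inv_mul_cancel₀ h0, one_mul]

theorem Un.mul (hΦ : Prime Φ) {f g : RatFunc ℚ} (hf : Un Φ f) (hg : Un Φ g) :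
    Un Φ (f * g) := by
  obtain ⟨P, Q, hP, hQ, e⟩ := hf
  obtain ⟨P', Q', hP', hQ', e'⟩ := hg
  refine ⟨P * P', Q * Q', not_dvd_mul hΦ hP hP', not_dvd_mul hΦ hQ hQ', ?_⟩
  rw [map_mul, map_mul, ← e, ← e']
  ring

theorem Un.prod (hΦ : Prime Φ) {ι : Type*} {s : Finset ι} {f : ι → RatFunc ℚ}
    (h : ∀ i ∈ s, Un Φ (f i)) : Un Φ (∏ i ∈ s, f i) := by
  classical
  induction s using Finset.induction_on with
  | empty => exact ⟨1, 1, hΦ.not_dvd_one, hΦ.not_dvd_one, by simp⟩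
  | insert a s ha ih =>
    rw [Finset.prod_insert ha]
    exact (h a (Finset.mem_insert_self _ _)).mul hΦ
      (ih fun i hi => h i (Finset.mem_insert_of_mem hi))

theorem Un.poly (hΦ : Prime Φ) {P : ℚ[X]} (h : ¬ Φ ∣ P) : Un Φ (emb P) :=
  ⟨P, 1, h, hΦ.not_dvd_one, by simp⟩

theorem Un.pow (hΦ : Prime Φ) {f : RatFunc ℚ} (h : Un Φ f) (k : ℕ) : Un Φ (f ^ k) := by
  induction k with
  | zero => exact ⟨1, 1, hΦ.not_dvd_one, hΦ.not_dvd_one, by simp⟩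
  | succ k ih => rw [pow_succ]; exact ih.mul hΦ h

theorem Un.zpow (hΦ : Prime Φ) {f : RatFunc ℚ} (h : Un Φ f) (k : ℤ) : Un Φ (f ^ k) := by
  cases k with
  | ofNat k => simpa using h.pow hΦ k
  | negSucc k => rw [zpow_negSucc]; exact (h.pow hΦ _).inv

theorem Un.neg {f : RatFunc ℚ} (h : Un Φ f) : Un Φ (-f) := by
  obtain ⟨P, Q, hP, hQ, e⟩ := h
  refine ⟨-P, Q, ?_, hQ, by rw [neg_mul, e, map_neg]⟩
  rwa [dvd_neg]

/-- congruence modulo `Φ^k` -/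
def Cg (Φ : ℚ[X]) (k : ℕ) (f g : RatFunc ℚ) : Prop := Dv Φ k (f - g)

theorem Cg.refl (hΦ : Prime Φ) (k : ℕ) (f : RatFunc ℚ) : Cg Φ k f f := by
  unfold Cg; rw [sub_self]; exact Dv.zero hΦ k

theorem Cg.symm {k : ℕ} {f g : RatFunc ℚ} (h : Cg Φ k f g) : Cg Φ k g f := by
  unfold Cg at *; rw [← neg_sub]; exact h.neg

theorem Cg.trans (hΦ : Prime Φ) {k : ℕ} {f g h : RatFunc ℚ} (h1 : Cg Φ k f g)
    (h2 : Cg Φ k g h) : Cg Φ k f h := by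
  unfold Cg at *
  have := h1.add hΦ h2
  rwa [sub_add_sub_cancel] at this

theorem Cg.add (hΦ : Prime Φ) {k : ℕ} {f g f' g' : RatFunc ℚ} (h1 : Cg Φ k f g)
    (h2 : Cg Φ k f' g') : Cg Φ k (f + f') (g + g') := by
  unfold Cg at *
  have := h1.add hΦ h2
  convert this using 1
  ring

theorem Cg.mul (hΦ : Prime Φ) {k : ℕ} {f g f' g' : RatFunc ℚ} (h1 : Cg Φ k f g)
    (h2 : Cg Φ k f' g') (d1 : Dv Φ 0 f') (d2 : Dv Φ 0 g) : Cg Φ k (f * f') (g * g') := by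
  unfold Cg at *
  have := (h1.mul_right hΦ d1).add hΦ (d2.mul_left hΦ h2)
  convert this using 1
  ring

theorem Cg.sum (hΦ : Prime Φ) {ι : Type*} {s : Finset ι} {k : ℕ} {f g : ι → RatFunc ℚ}
    (h : ∀ i ∈ s, Cg Φ k (f i) (g i)) : Cg Φ k (∑ i ∈ s, f i) (∑ i ∈ s, g i) := by
  unfold Cg
  rw [← Finset.sum_sub_distrib]
  exact Dv.sum hΦ h

theorem Cg.prod (hΦ : Prime Φ) {ι : Type*} {s : Finset ι} {k : ℕ} {f g : ι → RatFunc ℚ}
    (h : ∀ i ∈ s, Cg Φ k (f i) (g i)) (df : ∀ i ∈ s, Dv Φ 0 (f i)) (dg : ∀ i ∈ s, Dv Φ 0 (g i)) :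
    Cg Φ k (∏ i ∈ s, f i) (∏ i ∈ s, g i) := by
  classical
  induction s using Finset.induction_on with
  | empty => simpa using Cg.refl hΦ k 1
  | insert a s ha ih =>
    rw [Finset.prod_insert ha, Finset.prod_insert ha]
    apply Cg.mul hΦ (h a (Finset.mem_insert_self _ _))
      (ih (fun i hi => h i (Finset.mem_insert_of_mem hi))
        (fun i hi => df i (Finset.mem_insert_of_mem hi))
        (fun i hi => dg i (Finset.mem_insert_of_mem hi)))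
    · exact Dv.prod hΦ fun i hi => df i (Finset.mem_insert_of_mem hi)
    · exact dg a (Finset.mem_insert_self _ _)

theorem Cg.pow (hΦ : Prime Φ) {k : ℕ} {f g : RatFunc ℚ} (h : Cg Φ k f g) (df : Dv Φ 0 f)
    (dg : Dv Φ 0 g) (j : ℕ) : Cg Φ k (f ^ j) (g ^ j) := by
  have := Cg.prod hΦ (s := Finset.range j) (k := k) (f := fun _ => f) (g := fun _ => g)
    (fun _ _ => h) (fun _ _ => df) (fun _ _ => dg)
  simpa using this

theorem Cg.inv (hΦ : Prime Φ) {k : ℕ} {f g : RatFunc ℚ} (h : Cg Φ k f g) (df : Un Φ f)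
    (dg : Un Φ g) : Cg Φ k f⁻¹ g⁻¹ := by
  unfold Cg at *
  have : f⁻¹ - g⁻¹ = -(f⁻¹ * g⁻¹ * (f - g)) := by
    have hf := df.ne_zero
    have hg := dg.ne_zero
    field_simp
    ring
  rw [this]
  exact ((df.inv.dv.mul_left hΦ dg.inv.dv).mul_left hΦ h).neg

theorem Cg.dv (hΦ : Prime Φ) {k : ℕ} {f g : RatFunc ℚ} (h : Cg Φ k f g) (hg : Dv Φ k g) :
    Dv Φ k f := by
  have := Dv.add hΦ h hg
  rwa [sub_add_cancel] at this

theorem mul_denom (f : RatFunc ℚ) : f * emb f.denom = emb f.num := by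
  have hd : emb f.denom ≠ 0 := emb_ne_zero.mpr f.denom_ne_zero
  have h : emb f.num / emb f.denom = f := RatFunc.num_div_denom f
  rw [div_eq_iff hd] at h
  exact h.symm

/-- translation to numerators and denominators -/
theorem Dv.num_denom (hΦ : Prime Φ) {k : ℕ} {f : RatFunc ℚ} (h : Dv Φ k f) :
    Φ ^ k ∣ f.num ∧ ¬ Φ ∣ f.denom := by
  obtain ⟨P, Q, hQ, e⟩ := h
  have e1 : f.num * Q = Φ ^ k * P * f.denom := by
    rw [← emb_inj, map_mul, map_mul, ← e, ← mul_denom f]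
    ring
  have hcop := f.isCoprime_num_denom
  have hdQ : f.denom ∣ Q := by
    have : f.denom ∣ f.num * Q := ⟨Φ ^ k * P, by rw [e1]; ring⟩
    exact hcop.symm.dvd_of_dvd_mul_left this
  constructor
  · apply hΦ.pow_dvd_of_dvd_mul_right k hQ
    exact ⟨P * f.denom, by rw [e1]; ring⟩
  · exact fun h => hQ (h.trans hdQ)

theorem Dv.of_num_denom {k : ℕ} {f : RatFunc ℚ} (h1 : Φ ^ k ∣ f.num) (h2 : ¬ Φ ∣ f.denom) :
    Dv Φ k f := by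
  obtain ⟨P, hP⟩ := h1
  refine ⟨P, f.denom, h2, ?_⟩
  rw [← hP]
  exact mul_denom f

end Pool.Agent.MPc82d9a
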