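import Pool.Agent.Lib.MP_c82d9a_nt.Block
import Pool.Agent.Lib.MP_c82d9a_nt.Defs

/-! The congruence for `n > 1`. -/

set_option maxHeartbeats 1000000

namespace Pool.Agent.MPc82d9a

open Polynomial

theorem Un.of_cg1 {Φ : ℚ[X]} (hp : Prime Φ) {f g : RatFunc ℚ} (h : Cg Φ 1 f g) (hg : Un Φ g) :
    Un Φ f := by
  obtain ⟨P, Q, hQ, e⟩ := h
  obtain ⟨P', Q', hP', hQ', e'⟩ := hg
  refine ⟨Φ * P * Q' + P' * Q, Q * Q', ?_, not_dvd_mul hp hQ hQ', ?_⟩
  · intro h
    have h1 : Φ ∣ Φ * P * Q' := ⟨P * Q', by ring⟩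
    have h2 := (dvd_add_right h1).mp h
    exact not_dvd_mul hp hP' hQ h2
  · have e2 : f * emb (Q * Q') = (f - g) * emb Q * emb Q' + (g * emb Q') * emb Q := by
      rw [map_mul]; ring
    rw [e2, e, e', ← map_mul, ← map_mul, ← map_add, pow_one]

theorem Un.ratCast {Φ : ℚ[X]} (hp : Prime Φ) {r : ℚ} (hr : r ≠ 0) :
    Un Φ (algebraMap ℚ (RatFunc ℚ) r) := by
  have e : emb (C r) = algebraMap ℚ (RatFunc ℚ) r := by
    rw [IsScalarTower.algebraMap_apply ℚ ℚ[X] (RatFunc ℚ)]; rfl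
  rw [← e]
  apply Un.poly hp
  intro h
  exact hp.not_isUnit (isUnit_of_dvd_unit h (isUnit_C.mpr (isUnit_iff_ne_zero.mpr hr)))

theorem PA_add (q z : RatFunc ℚ) (c b : ℕ) :
    PA q z (c + b) = PA q z c * PA q (z * q ^ (2 * c)) b := by
  unfold PA
  rw [Finset.prod_range_add]
  congr 1
  apply Finset.prod_congr rfl
  intro i _
  ring

theorem PB_add (q z : RatFunc ℚ) (c b : ℕ) :
    PB q z (c + b) = PB q z c * PB q (z * q ^ c) b := by
  unfold PB
  rw [Finset.prod_range_add]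
  congr 1
  apply Finset.prod_congr rfl
  intro i _
  ring

/-- the ratio of the two products -/
noncomputable def rr (j : ℕ) : RatFunc ℚ := PA qq 1 j / PB qq 1 j

theorem cg_pow {n : ℕ} (hn : 0 < n) (k l : ℕ) (h : (n : ℤ) ∣ (k : ℤ) - l) :
    Cg (cyclotomic n ℚ) 1 (1 - qq ^ k) (1 - qq ^ l) := by
  have h1 := (un_zpow hn (l : ℤ)).dv.mul_left (prime_cyc hn) (dv_one_sub hn _ h)
  unfold Cg
  have e : (1 - qq ^ k) - (1 - qq ^ l) = qq ^ (l : ℤ) * (1 - qq ^ ((k : ℤ) - l)) := by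
    rw [mul_sub, ← zpow_add₀ qq_ne, add_sub_cancel, zpow_natCast, zpow_natCast]
    ring
  rw [e]
  exact h1

/-- the geometric sum -/
noncomputable def GG (n l : ℕ) : RatFunc ℚ := ∑ i ∈ Finset.range l, (qq ^ n) ^ i

theorem GG_mul (n l : ℕ) : (1 - qq ^ n) * GG n l = 1 - qq ^ (n * l) := by
  unfold GG
  rw [mul_neg_geom_sum, ← pow_mul]

theorem GG_cg {n : ℕ} (hn : 0 < n) (l : ℕ) :
    Cg (cyclotomic n ℚ) 1 (GG n l) (algebraMap ℚ (RatFunc ℚ) (l : ℚ)) := by
  have hp := prime_cyc hn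
  have h := Cg.sum hp (s := Finset.range l) (k := 1) (f := fun i => (qq ^ n) ^ i)
    (g := fun _ => (1 : RatFunc ℚ)) (fun i _ => by
      have h1 := cg_pow hn (n * i) 0 (by simp)
      unfold Cg at h1 ⊢
      have e : (qq ^ n) ^ i - 1 = -((1 - qq ^ (n * i)) - (1 - qq ^ 0)) + 0 := by
        rw [pow_mul]; ring
      rw [e, add_zero]
      exact h1.neg)
  have e : (∑ _i ∈ Finset.range l, (1 : RatFunc ℚ)) = algebraMap ℚ (RatFunc ℚ) (l : ℚ) := by
    simp
  rw [e] at h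
  exact h

theorem prod_two (f : ℕ → RatFunc ℚ) (N : ℕ) :
    ∏ k ∈ Finset.range (2 * N), f k =
      (∏ i ∈ Finset.range N, f (2 * i)) * ∏ i ∈ Finset.range N, f (2 * i + 1) := by
  induction N with
  | zero => simp
  | succ N ih =>
    have : 2 * (N + 1) = 2 * N + 1 + 1 := by ring
    rw [this, Finset.prod_range_succ, Finset.prod_range_succ, ih, Finset.prod_range_succ,
      Finset.prod_range_succ]
    ring

/-- the ratio of consecutive block values -/
theorem rr_step (N a : ℕ) :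
    ∃ W : RatFunc ℚ, rr ((a + 1) * (2 * N + 1)) = rr (a * (2 * N + 1)) * W ∧
      Dv (cyclotomic (2 * N + 1) ℚ) 0 W ∧
      Cg (cyclotomic (2 * N + 1) ℚ) 1 W (algebraMap ℚ (RatFunc ℚ) ((2 * a + 1) / (a + 1))) := by
  have hn : 0 < 2 * N + 1 := by omega
  have hp := prime_cyc hn
  set n := 2 * N + 1 with hnN
  -- the pieces
  let A1 : RatFunc ℚ := ∏ i ∈ Finset.range N, (1 - qq ^ (2 * (a * n) + (2 * i + 1)))
  let A2 : RatFunc ℚ := ∏ i ∈ Finset.range N, (1 - qq ^ (2 * (a * n) + (2 * (N + 1 + i) + 1)))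
  let B1 : RatFunc ℚ := ∏ i ∈ Finset.range N, (1 - qq ^ (a * n + (2 * i + 1)))
  let B2 : RatFunc ℚ := ∏ i ∈ Finset.range N, (1 - qq ^ (a * n + (2 * i + 1 + 1)))
  have hPA : PA qq (1 * qq ^ (2 * (a * n))) n = A1 * (1 - qq ^ (n * (2 * a + 1))) * A2 := by
    have e0 : PA qq (1 * qq ^ (2 * (a * n))) n = PA qq (1 * qq ^ (2 * (a * n))) (N + (1 + N)) := by
      congr 1
      omega
    have h1 : ∏ i ∈ Finset.range N, (1 - 1 * qq ^ (2 * (a * n)) * qq ^ (2 * i + 1)) = A1 := by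
      apply Finset.prod_congr rfl
      intro i _
      rw [one_mul, ← pow_add]
    have h2 : 1 - 1 * qq ^ (2 * (a * n)) * qq ^ (2 * (N + 0) + 1) =
        1 - qq ^ (n * (2 * a + 1)) := by
      rw [one_mul, ← pow_add]
      congr 2
      rw [hnN]
      ring
    have h3 : ∏ i ∈ Finset.range N, (1 - 1 * qq ^ (2 * (a * n)) *
        qq ^ (2 * (N + (1 + i)) + 1)) = A2 := by
      apply Finset.prod_congr rfl
      intro i _
      rw [one_mul, ← pow_add]
      congr 2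
      ring
    rw [e0, PA, Finset.prod_range_add, Finset.prod_range_add, Finset.prod_range_one, h1, h2, h3,
      mul_assoc]
  have hPB : PB qq (1 * qq ^ (a * n)) n = B1 * B2 * (1 - qq ^ (n * (a + 1))) := by
    unfold PB
    rw [hnN, Finset.prod_range_succ, prod_two, ← hnN]
    congr 1
    · congr 1
      · apply Finset.prod_congr rfl
        intro i _
        rw [one_mul, ← pow_add]
      · apply Finset.prod_congr rfl
        intro i _
        rw [one_mul, ← pow_add]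
    · rw [one_mul, ← pow_add]
      congr 2
      rw [hnN]
      ring
  have c1 : Cg (cyclotomic n ℚ) 1 A1 B1 := by
    apply Cg.prod hp
    · intro i _
      apply cg_pow hn
      refine ⟨a, ?_⟩
      push_cast
      ring
    · intro i _
      have := dv_one_sub_zero hn ((2 * (a * n) + (2 * i + 1) : ℕ) : ℤ)
      rwa [zpow_natCast] at this
    · intro i _
      have := dv_one_sub_zero hn ((a * n + (2 * i + 1) : ℕ) : ℤ)
      rwa [zpow_natCast] at this
  have c2 : Cg (cyclotomic n ℚ) 1 A2 B2 := by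
    apply Cg.prod hp
    · intro i _
      apply cg_pow hn
      refine ⟨a + 1, ?_⟩
      rw [hnN]
      push_cast
      ring
    · intro i _
      have := dv_one_sub_zero hn ((2 * (a * n) + (2 * (N + 1 + i) + 1) : ℕ) : ℤ)
      rwa [zpow_natCast] at this
    · intro i _
      have := dv_one_sub_zero hn ((a * n + (2 * i + 1 + 1) : ℕ) : ℤ)
      rwa [zpow_natCast] at this
  have uB : ∀ k : ℕ, ¬ n ∣ k → Un (cyclotomic n ℚ) (1 - qq ^ k) := by
    intro k hk
    have := un_one_sub hn (k : ℤ) (fun h => hk (by exact_mod_cast h))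
    rwa [zpow_natCast] at this
  have u1 : Un (cyclotomic n ℚ) B1 := by
    apply Un.prod hp
    intro i hi
    rw [Finset.mem_range] at hi
    apply uB
    intro h
    have h1 : n ∣ 2 * i + 1 := (Nat.dvd_add_right (Dvd.intro_left a rfl)).mp h
    have := Nat.le_of_dvd (by omega) h1
    omega
  have u2 : Un (cyclotomic n ℚ) B2 := by
    apply Un.prod hp
    intro i hi
    rw [Finset.mem_range] at hi
    apply uB
    intro h
    have h1 : n ∣ 2 * i + 1 + 1 := (Nat.dvd_add_right (Dvd.intro_left a rfl)).mp h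
    have := Nat.le_of_dvd (by omega) h1
    omega
  have uG : Un (cyclotomic n ℚ) (GG n (a + 1)) := by
    apply Un.of_cg1 hp (GG_cg hn (a + 1))
    apply Un.ratCast hp
    positivity
  have uA1 : Un (cyclotomic n ℚ) A1 := Un.of_cg1 hp c1 u1
  have uA2 : Un (cyclotomic n ℚ) A2 := Un.of_cg1 hp c2 u2
  have uG2 : Un (cyclotomic n ℚ) (GG n (2 * a + 1)) := by
    apply Un.of_cg1 hp (GG_cg hn (2 * a + 1))
    apply Un.ratCast hp
    positivity
  refine ⟨A1 * B1⁻¹ * (A2 * B2⁻¹) * (GG n (2 * a + 1) * (GG n (a + 1))⁻¹), ?_, ?_, ?_⟩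
  · unfold rr
    have hun : 1 - qq ^ n ≠ 0 := one_sub_qq n hn
    have e1 : (a + 1) * n = a * n + n := by ring
    rw [e1, PA_add, PB_add, hPA, hPB, ← GG_mul, ← GG_mul]
    have b1 := u1.ne_zero
    have b2 := u2.ne_zero
    have b3 := uG.ne_zero
    rw [div_eq_mul_inv, div_eq_mul_inv, mul_inv, mul_inv, mul_inv, mul_inv]
    have : (1 - qq ^ n) * (1 - qq ^ n)⁻¹ = 1 := mul_inv_cancel₀ hun
    linear_combination (PA qq 1 (a * n) * (PB qq 1 (a * n))⁻¹ * (A1 * B1⁻¹ * (A2 * B2⁻¹) *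
      (GG n (2 * a + 1) * (GG n (a + 1))⁻¹))) * this
  · exact (((uA1.dv.mul_left hp u1.inv.dv)).mul_left hp (uA2.dv.mul_left hp u2.inv.dv)).mul_left hp
      (uG2.dv.mul_left hp uG.inv.dv)
  · have q1 : Cg (cyclotomic n ℚ) 1 (A1 * B1⁻¹) 1 := by
      unfold Cg at c1 ⊢
      have e : A1 * B1⁻¹ - 1 = (A1 - B1) * B1⁻¹ := by
        rw [sub_mul, mul_inv_cancel₀ u1.ne_zero]
      rw [e]
      exact c1.mul_right hp u1.inv.dv
    have q2 : Cg (cyclotomic n ℚ) 1 (A2 * B2⁻¹) 1 := by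
      unfold Cg at c2 ⊢
      have e : A2 * B2⁻¹ - 1 = (A2 - B2) * B2⁻¹ := by
        rw [sub_mul, mul_inv_cancel₀ u2.ne_zero]
      rw [e]
      exact c2.mul_right hp u2.inv.dv
    have hra : ((a + 1 : ℕ) : ℚ) ≠ 0 := by positivity
    have uR : Un (cyclotomic n ℚ) (algebraMap ℚ (RatFunc ℚ) ((a + 1 : ℕ) : ℚ)) :=
      Un.ratCast hp hra
    have q3 : Cg (cyclotomic n ℚ) 1 (GG n (2 * a + 1) * (GG n (a + 1))⁻¹)
        (algebraMap ℚ (RatFunc ℚ) ((2 * a + 1 : ℕ) : ℚ) *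
          (algebraMap ℚ (RatFunc ℚ) ((a + 1 : ℕ) : ℚ))⁻¹) :=
      Cg.mul hp (GG_cg hn (2 * a + 1)) (Cg.inv hp (GG_cg hn (a + 1)) uG uR) uG.inv.dv
        (Dv.ratCast hp _)
    have q4 := Cg.mul hp (Cg.mul hp q1 q2 (uA2.dv.mul_left hp u2.inv.dv) (Dv.one hp)) q3
      (uG2.dv.mul_left hp uG.inv.dv) (by rw [mul_one]; exact Dv.one hp)
    have e : 1 * 1 * (algebraMap ℚ (RatFunc ℚ) ((2 * a + 1 : ℕ) : ℚ) *
          (algebraMap ℚ (RatFunc ℚ) ((a + 1 : ℕ) : ℚ))⁻¹) =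
        algebraMap ℚ (RatFunc ℚ) ((2 * a + 1) / (a + 1)) := by
      rw [one_mul, one_mul, ← map_inv₀, ← map_mul, div_eq_mul_inv]
      push_cast
      rfl
    rw [e] at q4
    exact q4

/-- the limiting values -/
def rho (a : ℕ) : ℚ := ∏ t ∈ Finset.range a, ((2 * t + 1 : ℚ) / (t + 1))

theorem rr_cg (N a : ℕ) :
    Dv (cyclotomic (2 * N + 1) ℚ) 0 (rr (a * (2 * N + 1))) ∧
    Cg (cyclotomic (2 * N + 1) ℚ) 1 (rr (a * (2 * N + 1))) (algebraMap ℚ (RatFunc ℚ) (rho a)) := by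
  have hn : 0 < 2 * N + 1 := by omega
  have hp := prime_cyc hn
  induction a with
  | zero =>
    rw [zero_mul, rr, PA_zero, PB_zero, div_one, rho, Finset.prod_range_zero, map_one]
    exact ⟨Dv.one hp, Cg.refl hp 1 1⟩
  | succ a ih =>
    obtain ⟨W, h1, h2, h3⟩ := rr_step N a
    have e : rho (a + 1) = rho a * ((2 * a + 1) / (a + 1)) := by
      rw [rho, Finset.prod_range_succ, ← rho]
    rw [h1, e, map_mul]
    exact ⟨ih.1.mul_left hp h2, Cg.mul hp ih.2 h3 h2 (Dv.ratCast hp _)⟩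

theorem b_eq (j : ℕ) : b j = rho j ^ 3 := by
  have key : ∀ j : ℕ, (2 : ℚ) ^ j * (ascPochhammer ℚ j).eval (1 / 2) = rho j * j.factorial := by
    intro j
    induction j with
    | zero => simp [rho]
    | succ j ih =>
      have e : rho (j + 1) = rho j * ((2 * j + 1) / (j + 1)) := by
        rw [rho, Finset.prod_range_succ, ← rho]
      rw [ascPochhammer_succ_eval, e, Nat.factorial_succ, pow_succ]
      have : (j : ℚ) + 1 ≠ 0 := by positivity
      push_cast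
      field_simp
      linear_combination (1 + 2 * (j : ℚ)) * ih
  have hf : (j.factorial : ℚ) ≠ 0 := by positivity
  have h8 : (8 : ℚ) ^ j = (2 ^ j) ^ 3 := by
    rw [← pow_mul, mul_comm, pow_mul]; norm_num
  rw [b, h8, ← mul_pow, key, mul_pow, mul_div_assoc, div_self (pow_ne_zero 3 hf), mul_one]

end Pool.Agent.MPc82d9a
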