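import Pool.Agent.Lib.MP_c82d9a_nt.Final

/-! The case `n = 1`. -/

set_option maxHeartbeats 1000000

namespace Pool.Agent.MPc82d9a

open Polynomial

/-- rational constants -/
noncomputable abbrev kk : ℚ →+* RatFunc ℚ := algebraMap ℚ (RatFunc ℚ)

/-- first order expansion at `q = 1` -/
def E (f : RatFunc ℚ) (α β : ℚ) : Prop :=
  Cg (cyclotomic 1 ℚ) 2 f (kk α + kk β * (1 - qq))

theorem prime1 : Prime (cyclotomic 1 ℚ) := prime_cyc (by norm_num)

theorem dv_u : Dv (cyclotomic 1 ℚ) 1 (1 - qq) := by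
  have := dv_one_sub (n := 1) (by norm_num) 1 (by norm_num)
  rwa [zpow_one] at this

theorem dv_u0 : Dv (cyclotomic 1 ℚ) 0 (1 - qq) := dv_u.mono (Nat.zero_le 1)

theorem dv_kk (r : ℚ) : Dv (cyclotomic 1 ℚ) 0 (kk r) := Dv.ratCast prime1 r

theorem E.dv {f : RatFunc ℚ} {α β : ℚ} (h : E f α β) : Dv (cyclotomic 1 ℚ) 0 f :=
  Cg.dv prime1 (Dv.mono (Nat.zero_le 2) h)
    ((dv_kk α).add prime1 ((dv_kk β).mul_left prime1 dv_u0))

theorem E.const (α : ℚ) : E (kk α) α 0 := by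
  unfold E Cg
  have e : kk α - (kk α + kk 0 * (1 - qq)) = 0 := by rw [map_zero]; ring
  rw [e]
  exact Dv.zero prime1 2

theorem E.add {f g : RatFunc ℚ} {α β γ δ : ℚ} (hf : E f α β) (hg : E g γ δ) :
    E (f + g) (α + γ) (β + δ) := by
  have h := Cg.add prime1 hf hg
  unfold E
  have e : kk (α + γ) + kk (β + δ) * (1 - qq) =
      kk α + kk β * (1 - qq) + (kk γ + kk δ * (1 - qq)) := by
    rw [map_add, map_add]; ring
  rw [e]
  exact h

theorem E.mul {f g : RatFunc ℚ} {α β γ δ : ℚ} (hf : E f α β) (hg : E g γ δ) :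
    E (f * g) (α * γ) (α * δ + β * γ) := by
  have dg := hg.dv
  have d1 : Dv (cyclotomic 1 ℚ) 0 (kk α + kk β * (1 - qq)) :=
    (dv_kk α).add prime1 ((dv_kk β).mul_left prime1 dv_u0)
  have h := Cg.mul prime1 hf hg dg d1
  have h2 : Dv (cyclotomic 1 ℚ) 2 ((1 - qq) * (1 - qq)) := Dv.mul11 prime1 dv_u dv_u
  have h3 := (dv_kk (β * δ)).mul_left prime1 h2
  unfold Cg at h
  have h4 := h.add prime1 h3
  unfold E Cg
  have e : f * g - (kk (α * γ) + kk (α * δ + β * γ) * (1 - qq)) =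
      f * g - (kk α + kk β * (1 - qq)) * (kk γ + kk δ * (1 - qq)) +
        kk (β * δ) * ((1 - qq) * (1 - qq)) := by
    rw [map_mul, map_add, map_mul, map_mul, map_mul]; ring
  rw [e]
  exact h4

theorem E.un {f : RatFunc ℚ} {α β : ℚ} (h : E f α β) (hα : α ≠ 0) : Un (cyclotomic 1 ℚ) f := by
  apply Un.of_cg1 prime1 (g := kk α) _ (Un.ratCast prime1 hα)
  unfold Cg
  have h1 : Dv (cyclotomic 1 ℚ) 1 (f - (kk α + kk β * (1 - qq))) := Dv.mono (by norm_num) h
  have h2 := h1.add prime1 ((dv_kk β).mul_left prime1 dv_u)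
  have e : f - kk α = f - (kk α + kk β * (1 - qq)) + kk β * (1 - qq) := by ring
  rw [e]
  exact h2

theorem E.inv {f : RatFunc ℚ} {α β : ℚ} (h : E f α β) (hα : α ≠ 0) :
    E f⁻¹ α⁻¹ (-(β / α ^ 2)) := by
  have hu := h.un hα
  have h0 := hu.ne_zero
  have di := hu.inv.dv
  have hk : kk α ≠ 0 := by
    rw [Ne, map_eq_zero]; exact hα
  have h2 : Dv (cyclotomic 1 ℚ) 2 ((1 - qq) * (1 - qq)) := Dv.mul11 prime1 dv_u dv_u
  have d3 : Dv (cyclotomic 1 ℚ) 0 (kk α⁻¹ - kk (β / α ^ 2) * (1 - qq)) :=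
    (dv_kk _).sub prime1 ((dv_kk _).mul_left prime1 dv_u0)
  have h3 := di.mul_left prime1 (h.mul_right prime1 d3)
  have h4 := di.mul_left prime1 ((dv_kk (β ^ 2 / α ^ 2)).mul_left prime1 h2)
  have h5 := h4.sub prime1 h3
  unfold E Cg
  have e : f⁻¹ - (kk α⁻¹ + kk (-(β / α ^ 2)) * (1 - qq)) =
      f⁻¹ * (kk (β ^ 2 / α ^ 2) * ((1 - qq) * (1 - qq))) -
        f⁻¹ * ((f - (kk α + kk β * (1 - qq))) * (kk α⁻¹ - kk (β / α ^ 2) * (1 - qq))) := by
    simp only [map_inv₀, map_neg, map_div₀, map_pow]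
    field_simp
    ring
  rw [e]
  exact h5

theorem E.congr {f : RatFunc ℚ} {α β α' β' : ℚ} (h : E f α β) (h1 : α = α') (h2 : β = β') :
    E f α' β' := by
  rw [← h1, ← h2]; exact h

theorem E.qq : E qq 1 (-1) := by
  unfold E Cg
  have e : Pool.Agent.MPc82d9a.qq - (kk 1 + kk (-1) * (1 - Pool.Agent.MPc82d9a.qq)) = 0 := by
    rw [map_neg, map_one]; ring
  rw [e]
  exact Dv.zero prime1 2

theorem E.qpow (i : ℕ) : E (Pool.Agent.MPc82d9a.qq ^ i) 1 (-i) := by
  induction i with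
  | zero =>
    rw [pow_zero]
    have := E.const 1
    rw [map_one] at this
    exact this.congr rfl (by simp)
  | succ i ih =>
    rw [pow_succ]
    apply (ih.mul E.qq).congr (by ring)
    push_cast
    ring

theorem E.qInt (k : ℕ) : E (Pool.Agent.MPc82d9a.qInt k) k (-((k : ℚ) * (k - 1) / 2)) := by
  induction k with
  | zero =>
    rw [Pool.Agent.MPc82d9a.qInt, Finset.sum_range_zero]
    have := E.const 0
    rw [map_zero] at this
    exact this.congr (by simp) (by simp)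
  | succ k ih =>
    rw [Pool.Agent.MPc82d9a.qInt, Finset.sum_range_succ, ← Pool.Agent.MPc82d9a.qInt]
    apply (ih.add (E.qpow k)).congr
    · push_cast; ring
    · push_cast; ring

theorem rr_succ (j : ℕ) : rr (j + 1) = rr j * (qInt (2 * j + 1) * (qInt (j + 1))⁻¹) := by
  have h0 : (1 - qq : RatFunc ℚ) ≠ 0 := by
    have := one_sub_qq 1 (by norm_num)
    rwa [pow_one] at this
  have hq : qInt (j + 1) ≠ 0 := by
    have := one_sub_qq (j + 1) (by omega)
    rw [← qInt_mul] at this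
    exact right_ne_zero_of_mul this
  unfold rr
  rw [PA_succ, PB_succ, one_mul, one_mul, ← qInt_mul, ← qInt_mul, div_eq_mul_inv, div_eq_mul_inv,
    mul_inv, mul_inv]
  have : (1 - qq) * (1 - qq)⁻¹ = 1 := mul_inv_cancel₀ h0
  linear_combination (PA qq 1 j * (PB qq 1 j)⁻¹ * (qInt (2 * j + 1) * (qInt (j + 1))⁻¹)) * this

theorem E.rr (j : ℕ) : E (Pool.Agent.MPc82d9a.rr j) (rho j) (-(rho j * (j * (j - 1) / 4))) := by
  induction j with
  | zero =>
    have h1 : Pool.Agent.MPc82d9a.rr 0 = 1 := by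
      rw [Pool.Agent.MPc82d9a.rr, PA_zero, PB_zero, div_one]
    rw [h1]
    have := E.const 1
    rw [map_one] at this
    exact this.congr (by simp [rho]) (by simp)
  | succ j ih =>
    rw [rr_succ]
    have hj : ((j + 1 : ℕ) : ℚ) ≠ 0 := by positivity
    have hj' : (j : ℚ) + 1 ≠ 0 := by positivity
    have e : rho (j + 1) = rho j * ((2 * j + 1) / (j + 1)) := by
      rw [rho, Finset.prod_range_succ, ← rho]
    have h1 := ih.mul ((E.qInt (2 * j + 1)).mul ((E.qInt (j + 1)).inv hj))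
    apply h1.congr
    · rw [e]; push_cast; ring
    · rw [e]; push_cast
      field_simp
      ring

theorem E.term (j : ℕ) : E ((-1) ^ j * Pool.Agent.MPc82d9a.qInt (3 * j + 1) * c j)
    ((-1) ^ j * (3 * (j : ℚ) + 1) * b j)
    (-(3 / 4) * ((-1) ^ j * ((3 * (j : ℚ) + 1) * (j * (j + 1)) * b j))) := by
  rw [c_eq, b_eq]
  have h1 := E.const ((-1) ^ j)
  rw [map_pow, map_neg, map_one] at h1
  have h2 := (h1.mul (E.qInt (3 * j + 1))).mul
    (((E.rr j).mul (E.rr j)).mul (E.rr j))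
  have e : Pool.Agent.MPc82d9a.rr j ^ 3 = Pool.Agent.MPc82d9a.rr j * Pool.Agent.MPc82d9a.rr j *
    Pool.Agent.MPc82d9a.rr j := by ring
  rw [e]
  apply h2.congr
  · push_cast; ring
  · push_cast; ring

/-- the second order coefficient sum -/
noncomputable def kap (m : ℕ) : ℚ :=
  ∑ j ∈ Finset.range m, (-1) ^ j * ((3 * (j : ℚ) + 1) * (j * (j + 1)) * b j)

theorem E.L1 (m : ℕ) : E (L m 1) (∑ j ∈ Finset.range m, (-1) ^ j * (3 * (j : ℚ) + 1) * b j)
    (-(3 / 4) * kap m) := by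
  unfold L
  rw [mul_one]
  induction m with
  | zero =>
    have := E.const 0
    rw [map_zero] at this
    exact this.congr (by simp) (by simp [kap])
  | succ m ih =>
    rw [Finset.sum_range_succ, Finset.sum_range_succ]
    apply (ih.add (E.term m)).congr rfl
    rw [← mul_add, kap, kap, Finset.sum_range_succ]

theorem R1 (m : ℕ) : R m 1 = kk (∑ j ∈ Finset.range m, (-1) ^ j * (3 * (j : ℚ) + 1) * b j) := by
  unfold R qInt
  simp

theorem L_sub_R_one (m : ℕ) :
    Dv (cyclotomic 1 ℚ) 2 ((L m 1 - R m 1) - kk (-(3 / 4) * kap m) * (1 - qq)) := by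
  have h := E.L1 m
  unfold E Cg at h
  rw [← R1] at h
  have e : (L m 1 - R m 1) - kk (-(3 / 4) * kap m) * (1 - qq) =
    L m 1 - (R m 1 + kk (-(3 / 4) * kap m) * (1 - qq)) := by ring
  rw [e]
  exact h

theorem not_dv_u : ¬ Dv (cyclotomic 1 ℚ) 2 (1 - qq) := by
  rintro ⟨P, Q, hQ, e⟩
  have e1 : (1 - qq) = emb (1 - X) := by rw [map_sub, map_one, emb_X]
  rw [e1, ← map_mul, emb_inj, cyclotomic_one] at e
  rw [cyclotomic_one] at hQ
  apply hQ
  have hx : (X - 1 : ℚ[X]) ≠ 0 := X_sub_C_ne_zero 1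
  have e2 : (X - 1 : ℚ[X]) * Q = (X - 1) * ((X - 1) * (-P)) := by
    linear_combination -e
  have e3 := mul_left_cancel₀ hx e2
  exact ⟨-P, e3⟩

theorem dv_one_iff (m : ℕ) : Dv (cyclotomic 1 ℚ) 2 (L m 1 - R m 1) ↔ kap m = 0 := by
  have h := L_sub_R_one m
  constructor
  · intro h1
    by_contra hk
    have h2 := h1.sub prime1 h
    rw [sub_sub_cancel] at h2
    have hne : (-(3 / 4) * kap m) ≠ 0 := mul_ne_zero (by norm_num) hk
    have hne' : kk (-(3 / 4) * kap m) ≠ 0 := by rw [Ne, map_eq_zero]; exact hne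
    have h3 := (dv_kk (-(3 / 4) * kap m)⁻¹).mul_left prime1 h2
    rw [← mul_assoc, map_inv₀, inv_mul_cancel₀ hne', one_mul] at h3
    exact not_dv_u h3
  · intro hk
    rw [hk, mul_zero, map_zero, zero_mul, sub_zero] at h
    exact h

theorem b_pos (j : ℕ) : 0 < b j := by
  rw [b_eq]
  apply pow_pos
  unfold rho
  apply Finset.prod_pos
  intro i _
  positivity

theorem b_mono (j : ℕ) : b j ≤ b (j + 1) := by
  rw [b_eq, b_eq]
  have e : rho (j + 1) = rho j * ((2 * j + 1) / (j + 1)) := by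
    rw [rho, Finset.prod_range_succ, ← rho]
  have hpos : 0 < rho j := by
    unfold rho
    apply Finset.prod_pos
    intro i _
    positivity
  apply pow_le_pow_left₀ hpos.le
  rw [e]
  have h1 : (1 : ℚ) ≤ (2 * j + 1) / (j + 1) := by
    rw [le_div_iff₀ (by positivity)]
    have : (0 : ℚ) ≤ j := by positivity
    linarith
  calc rho j = rho j * 1 := by ring
    _ ≤ _ := mul_le_mul_of_nonneg_left h1 hpos.le

/-- the summands of `kap` -/
noncomputable def TT (j : ℕ) : ℚ := (3 * (j : ℚ) + 1) * (j * (j + 1)) * b j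

theorem TT_lt (j : ℕ) : TT j < TT (j + 1) := by
  unfold TT
  have h1 := b_mono j
  have h2 := b_pos j
  have h3 : (0 : ℚ) ≤ j := by positivity
  push_cast
  have h4 : (3 * (j : ℚ) + 1) * (j * (j + 1)) < (3 * ((j : ℚ) + 1) + 1) * ((j + 1) * (j + 1 + 1)) := by
    nlinarith [mul_nonneg h3 h3]
  have h5 : (0 : ℚ) ≤ (3 * ((j : ℚ) + 1) + 1) * ((j + 1) * (j + 1 + 1)) := by positivity
  calc (3 * (j : ℚ) + 1) * (j * (j + 1)) * b j
      < (3 * ((j : ℚ) + 1) + 1) * ((j + 1) * (j + 1 + 1)) * b j :=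
        mul_lt_mul_of_pos_right h4 h2
    _ ≤ _ := mul_le_mul_of_nonneg_left h1 h5

theorem kap_alt (m : ℕ) : 0 < (-1) ^ (m + 1) * kap (m + 2) ∧ (-1) ^ (m + 1) * kap (m + 2) ≤
    TT (m + 1) := by
  have hk : ∀ m, kap (m + 1) = kap m + (-1) ^ m * TT m := by
    intro m
    rw [kap, Finset.sum_range_succ]
    rfl
  induction m with
  | zero =>
    have h0 : TT 0 = 0 := by simp [TT]
    have h1 := TT_lt 0
    have h2 : kap (0 + 2) = -TT 1 := by
      rw [hk, hk]
      have : kap 0 = 0 := by simp [kap]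
      rw [this, h0]
      ring
    rw [h2]
    rw [h0] at h1
    constructor
    · simpa using h1
    · simp
  | succ m ih =>
    have h2 := TT_lt (m + 1)
    have e : (-1 : ℚ) ^ (m + 1 + 1) * kap (m + 1 + 2) =
        TT (m + 2) - (-1) ^ (m + 1) * kap (m + 2) := by
      have h3 : m + 1 + 2 = (m + 2) + 1 := by ring
      have h5 : ((-1 : ℚ) ^ (m + 1)) ^ 2 = 1 := by
        rw [← pow_mul, mul_comm, pow_mul]; norm_num
      rw [h3, hk, pow_succ (-1 : ℚ) (m + 1)]
      linear_combination TT (m + 2) * h5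
    rw [e]
    constructor
    · have := ih.2
      have h7 : TT (m + 1 + 1) = TT (m + 2) := rfl
      linarith
    · have h8 : TT (m + 1 + 1) = TT (m + 2) := rfl
      linarith [ih.1]

theorem kap_eq_zero_iff (m : ℕ) (hm : 0 < m) : kap m = 0 ↔ m = 1 := by
  constructor
  · intro h
    by_contra h1
    obtain ⟨k, rfl⟩ : ∃ k, m = k + 2 := ⟨m - 2, by omega⟩
    have := (kap_alt k).1
    rw [h, mul_zero] at this
    exact lt_irrefl _ this
  · rintro rfl
    simp [kap]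

theorem one_iff (m : ℕ) (hm : 0 < m) : Dv (cyclotomic 1 ℚ) 2 (L m 1 - R m 1) ↔ m = 1 := by
  rw [dv_one_iff, kap_eq_zero_iff m hm]

theorem main (m n : ℕ) (hm : 0 < m) (hn : Odd n) :
    CongrModSq n (L m n) (R m n) ↔ (n ≠ 1 ∨ m = 1) := by
  obtain ⟨N, rfl⟩ := hn
  have hp : Prime (cyclotomic (2 * N + 1) ℚ) := prime_cyc (by omega)
  have hiff : CongrModSq (2 * N + 1) (L m (2 * N + 1)) (R m (2 * N + 1)) ↔
      Dv (cyclotomic (2 * N + 1) ℚ) 2 (L m (2 * N + 1) - R m (2 * N + 1)) :=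
    ⟨fun h => Dv.of_num_denom h.1 h.2, fun h => h.num_denom hp⟩
  rw [hiff]
  rcases Nat.eq_zero_or_pos N with h | h
  · subst h
    have e : 2 * 0 + 1 = 1 := rfl
    rw [e, one_iff m hm]
    constructor
    · exact fun h => Or.inr h
    · rintro (h | h)
      · exact absurd rfl h
      · exact h
  · exact ⟨fun _ => Or.inl (by omega), fun _ => congr_of_gt m N h⟩

end Pool.Agent.MPc82d9a
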